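import Pool.Agent.W679.A6

set_option autoImplicit false

/-!
Symmetric polygons: the two opposite ears and the odd shear (helper922).
-/

open MeasureTheory Set Filter
open scoped ENNReal Topology Matrix

namespace Pool.Agent.TH922.PL

open Pool.Agent.H131R5.LM Pool.Agent.H131R5.LC Pool.Agent.W679.A

variable {n : ℕ} {p : ℝ}

/-- the odd function defining the symmetric shear -/
noncomputable def ob (L : (Fin n → ℝ) →ₗ[ℝ] ℝ) (l0 : ℝ) (x : Fin n → ℝ) : ℝ :=
  max 0 (L x + l0) - max 0 (-L x + l0)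

lemma ob_cont (L : (Fin n → ℝ) →ₗ[ℝ] ℝ) (l0 : ℝ) : Continuous (ob L l0) := by
  have h2 : Continuous L := LinearMap.continuous_of_finiteDimensional L
  unfold ob
  fun_prop

lemma ob_inv (L : (Fin n → ℝ) →ₗ[ℝ] ℝ) (l0 : ℝ) {θ : Fin n → ℝ} (hL : L θ = 0)
    (x : Fin n → ℝ) (s : ℝ) : ob L l0 (x + s • θ) = ob L l0 x := by
  unfold ob
  rw [map_add, map_smul, hL, smul_zero, add_zero]

/-- symmetric sets contain the origin in their hull -/
lemma zero_mem_hull {S : Set (Fin n → ℝ)} (hs : ∀ s ∈ S, -s ∈ S) (hne : S.Nonempty) :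
    (0 : Fin n → ℝ) ∈ convexHull ℝ S := by
  obtain ⟨u, hu⟩ := hne
  have h := (convex_convexHull ℝ S) (subset_convexHull ℝ S hu)
    (subset_convexHull ℝ S (hs u hu)) (by norm_num : (0:ℝ) ≤ 1 / 2)
    (by norm_num : (0:ℝ) ≤ 1 / 2) (by norm_num)
  simpa using h

lemma neg_mem_hull {S : Set (Fin n → ℝ)} (hs : ∀ s ∈ S, -s ∈ S) {x : Fin n → ℝ}
    (hx : x ∈ convexHull ℝ S) : -x ∈ convexHull ℝ S := by
  have h1 : S ⊆ {y | -y ∈ convexHull ℝ S} := fun y hy => subset_convexHull ℝ S (hs y hy)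
  have h2 : Convex ℝ {y : Fin n → ℝ | -y ∈ convexHull ℝ S} := by
    intro a ha b hb s t hs' ht hst
    have := (convex_convexHull ℝ S) ha hb hs' ht hst
    simp only [mem_ofPred_eq]
    have e : -(s • a + t • b) = s • -a + t • -b := by module
    rw [e]; exact this
  exact convexHull_min h1 h2 hx

/-- the opposite ear -/
lemma ear_neg {v u w : Fin n → ℝ} {S : Set (Fin n → ℝ)} (hs : ∀ s ∈ S, -s ∈ S)
    (h : Ear v u w S) : Ear (-v) (-u) (-w) S := by
  intro s hs'
  obtain ⟨α, γ, h1, h2, h3, h4⟩ := h (-s) (hs s hs')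
  refine ⟨α, γ, h1, h2, h3, ?_⟩
  have : s = -(-s) := (neg_neg s).symm
  rw [this, h4]
  module

/-- the opposite vertex is beyond the chord -/
lemma ear_ins {v u w : Fin n → ℝ} {S : Set (Fin n → ℝ)} (hs : ∀ s ∈ S, -s ∈ S) (hne : S.Nonempty)
    (h : Ear v u w S) : Ear v u w (insert (-v) S) := by
  intro s hs'
  rcases hs' with rfl | hs'
  · obtain ⟨α, γ, h1, h2, h3, h4⟩ := h.hull 0 (zero_mem_hull hs hne)
    refine ⟨2 * α, 2 * γ, by positivity, by positivity, by linarith, ?_⟩
    have e : -v = v + (2:ℝ) • ((0 : Fin n → ℝ) - v) := by module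
    rw [e]
    conv_lhs => rw [h4]
    module
  · exact h s hs'

/-- decomposition of the hull into the two ears and the rest -/
theorem sym_hull {v u w : Fin n → ℝ} {S : Set (Fin n → ℝ)} (hs : ∀ s ∈ S, -s ∈ S) (hu : u ∈ S)
    (hw : w ∈ S) (h : Ear v u w S) :
    convexHull ℝ (insert v (insert (-v) S)) =
      convexHull ℝ S ∪ Tri (-v) (-u) (-w) ∪ Tri v u w := by
  rw [hull_ear (mem_insert_of_mem _ hu) (mem_insert_of_mem _ hw) (ear_ins hs ⟨u, hu⟩ h),
    hull_ear (hs u hu) (hs w hw) (ear_neg hs h)]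

/-- the odd shear moves the two opposite vertices -/
theorem osh_ear {v u w : Fin n → ℝ} {S : Set (Fin n → ℝ)} (hs : ∀ s ∈ S, -s ∈ S) (hu : u ∈ S)
    (hw : w ∈ S) (h : Ear v u w S) (L : (Fin n → ℝ) →ₗ[ℝ] ℝ) (l0 : ℝ) (hLu : L (u - v) = -1)
    (hLw : L (w - v) = -1) (hl0 : L v + l0 = 1) (hneg : l0 ≤ 0) (t : ℝ)
    (h' : Ear (v + t • (w - u)) u w S) :
    (fun x => x + (t * ob L l0 x) • (w - u)) '' convexHull ℝ (insert v (insert (-v) S)) =
      convexHull ℝ (insert (v + t • (w - u)) (insert (-(v + t • (w - u))) S)) := by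
  rw [sym_hull hs hu hw h, sym_hull hs hu hw h', image_union, image_union]
  have hval : ∀ α γ : ℝ, L (v + α • (u - v) + γ • (w - v)) + l0 = 1 - α - γ := by
    intro α γ
    rw [map_add, map_add, map_smul, map_smul, hLu, hLw, smul_eq_mul, smul_eq_mul]
    linarith
  have hval' : ∀ α γ : ℝ, -L (-v + α • (-u - -v) + γ • (-w - -v)) + l0 = 1 - α - γ := by
    intro α γ
    rw [← hval α γ, ← map_neg]
    congr 2
    module
  congr 1
  · congr 1
    · have hid : ∀ y ∈ convexHull ℝ S, ob L l0 y = 0 := by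
        intro y hy
        obtain ⟨α, γ, h1, h2, h3, he⟩ := h.hull y hy
        obtain ⟨α', γ', h1', h2', h3', he'⟩ := (ear_neg hs h).hull y hy
        have e1 : L y + l0 ≤ 0 := by rw [he, hval]; linarith
        have e2 : -L y + l0 ≤ 0 := by rw [he', hval']; linarith
        unfold ob
        rw [max_eq_left e1, max_eq_left e2, sub_zero]
      ext y
      constructor
      · rintro ⟨z, hz, rfl⟩
        simp only [hid z hz, mul_zero, zero_smul, add_zero]
        exact hz
      · intro hy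
        exact ⟨y, hy, by simp only [hid y hy, mul_zero, zero_smul, add_zero]⟩
    · have hmv : ∀ α γ : ℝ, α + γ ≤ 1 →
          (-v + α • (-u - -v) + γ • (-w - -v)) +
            (t * ob L l0 (-v + α • (-u - -v) + γ • (-w - -v))) • (w - u) =
          -(v + t • (w - u)) + α • (-u - -(v + t • (w - u))) +
            γ • (-w - -(v + t • (w - u))) := by
        intro α γ h1
        have e1 := hval' α γ
        have e2 : ob L l0 (-v + α • (-u - -v) + γ • (-w - -v)) = -(1 - α - γ) := by
          unfold ob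
          rw [e1, max_eq_right (by linarith : (0:ℝ) ≤ 1 - α - γ), max_eq_left (by linarith)]
          ring
        rw [e2]
        module
      ext y
      constructor
      · rintro ⟨_, ⟨α, γ, h1, h2, h3, rfl⟩, rfl⟩
        exact ⟨α, γ, h1, h2, h3, hmv α γ h3⟩
      · rintro ⟨α, γ, h1, h2, h3, rfl⟩
        exact ⟨_, ⟨α, γ, h1, h2, h3, rfl⟩, hmv α γ h3⟩
  · have hmv : ∀ α γ : ℝ, α + γ ≤ 1 →
        (v + α • (u - v) + γ • (w - v)) +
          (t * ob L l0 (v + α • (u - v) + γ • (w - v))) • (w - u) =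
        (v + t • (w - u)) + α • (u - (v + t • (w - u))) + γ • (w - (v + t • (w - u))) := by
      intro α γ h1
      have e1 := hval α γ
      have e2 : ob L l0 (v + α • (u - v) + γ • (w - v)) = 1 - α - γ := by
        unfold ob
        rw [e1, max_eq_right (by linarith : (0:ℝ) ≤ 1 - α - γ), max_eq_left (by linarith)]
        ring
      rw [e2]
      module
    ext y
    constructor
    · rintro ⟨_, ⟨α, γ, h1, h2, h3, rfl⟩, rfl⟩
      exact ⟨α, γ, h1, h2, h3, hmv α γ h3⟩
    · rintro ⟨α, γ, h1, h2, h3, rfl⟩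
      exact ⟨_, ⟨α, γ, h1, h2, h3, rfl⟩, hmv α γ h3⟩

/-- removing a pair of opposite points -/
lemma remove_pair {S T : Set (Fin n → ℝ)} (hT : ∀ s ∈ T, -s ∈ T) (hne : T.Nonempty)
    {s : Fin n → ℝ} (hS : S ⊆ insert s (insert (-s) T)) (hTS : T ⊆ S)
    (h : s ∈ convexHull ℝ (insert (-s) T)) : convexHull ℝ S = convexHull ℝ T := by
  have h0 := zero_mem_hull hT hne
  have h1 : s ∈ convexHull ℝ T := by
    rw [convexHull_insert hne, mem_convexJoin] at h
    obtain ⟨x, hx, y, hy, hseg⟩ := h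
    rw [mem_singleton_iff] at hx
    subst hx
    obtain ⟨a, b, ha, hb, hab, he⟩ := hseg
    have e1 : (1 + a) • s = b • y := by
      have : s + a • s = a • -s + b • y + a • s := by rw [he]
      calc (1 + a) • s = s + a • s := by module
        _ = a • -s + b • y + a • s := this
        _ = b • y := by module
    have ha1 : 0 < 1 + a := by linarith
    have e2 : s = (b / (1 + a)) • y + (1 - b / (1 + a)) • (0 : Fin n → ℝ) := by
      rw [smul_zero, add_zero, div_eq_inv_mul, mul_smul, ← e1, smul_smul,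
        inv_mul_cancel₀ ha1.ne', one_smul]
    rw [e2]
    refine (convex_convexHull ℝ T) hy h0 (by positivity) ?_ (by ring)
    rw [sub_nonneg, div_le_one ha1]; linarith
  apply hull_absorb hTS
  intro x hx
  rcases hS hx with rfl | rfl | hx
  · exact h1
  · exact neg_mem_hull hT h1
  · exact subset_convexHull ℝ T hx

end Pool.Agent.TH922.PL
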