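import Pool.Agent.TH922.PL.A1

set_option autoImplicit false

/-!
Symmetric polygons with marked boundary points: one side of the movement of a pair of opposite
vertices (helper922).
-/

open MeasureTheory Set Filter
open scoped ENNReal Topology Matrix

namespace Pool.Agent.TH922.PL

open Pool.Agent.H131R5.LM Pool.Agent.H131R5.LC Pool.Agent.W679.A

/-- the plane -/
abbrev E2 := Fin 2 → ℝ

/-- a symmetric finite set `S` with marked points `F ⊆ S` on the boundary of its hull -/
structure Cf (F S : Finset E2) : Prop where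
  symm : ∀ s ∈ S, -s ∈ S
  symF : ∀ f ∈ F, -f ∈ F
  sub : F ⊆ S
  mark : ∀ f ∈ F, ∃ g : E2 →ₗ[ℝ] ℝ, g f = 1 ∧ ∀ s ∈ S, g s ≤ 1

/-- `v` lies on an edge line through a marked point -/
def Stuck (F S : Finset E2) (v : E2) : Prop :=
  ∃ f ∈ F, ∃ s ∈ S, ∃ γ : ℝ, 1 < γ ∧ s = v + γ • (f - v)

open Classical in
/-- the unmarked points which can be moved -/
noncomputable def ns (F S : Finset E2) : Finset E2 := (S \ F).filter fun v => ¬ Stuck F S v

/-- the order used in the induction -/
def Less (F T S : Finset E2) : Prop :=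
  (T \ F).card < (S \ F).card ∨ ((T \ F).card ≤ (S \ F).card ∧ (ns F T).card < (ns F S).card)

lemma Ear.swap' {v u w : E2} {S : Set E2} (h : Ear v u w S) : Ear v w u S := by
  intro s hs
  obtain ⟨α, γ, h1, h2, h3, h4⟩ := h s hs
  exact ⟨γ, α, h2, h1, by linarith, by rw [h4]; module⟩

/-- the local data at a vertex -/
structure Loc (F S : Finset E2) (v u w : E2) (c1 c2 : E2 →ₗ[ℝ] ℝ) : Prop where
  cf : Cf F S
  vS : v ∈ S
  vF : v ∉ F
  v0 : v ≠ 0
  uS : u ∈ S
  uv : u ≠ v
  uv' : u ≠ -v
  wS : w ∈ S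
  wv : w ≠ v
  wv' : w ≠ -v
  coord : ∀ x : E2, x = c1 x • (u - v) + c2 x • (w - v)
  c1u : c1 (u - v) = 1
  c2u : c2 (u - v) = 0
  c1w : c1 (w - v) = 0
  c2w : c2 (w - v) = 1
  nn : ∀ s ∈ S, s ≠ v → s ≠ -v → 0 ≤ c1 (s - v) ∧ 0 ≤ c2 (s - v)
  one : ∀ s ∈ S, s ≠ v → s ≠ -v → 1 ≤ c1 (s - v) + c2 (s - v)
  strict : ∀ s ∈ S, s ≠ v → s ≠ -v → s ≠ u → s ≠ w →
    0 < c1 (s - v) ∧ 0 < c2 (s - v) ∧ 1 < c1 (s - v) + c2 (s - v)
  uw' : u ≠ -w
  nst : ¬ Stuck F S v

lemma Loc.swap {F S : Finset E2} {v u w : E2} {c1 c2 : E2 →ₗ[ℝ] ℝ} (h : Loc F S v u w c1 c2) :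
    Loc F S v w u c2 c1 where
  cf := h.cf
  vS := h.vS
  vF := h.vF
  v0 := h.v0
  uS := h.wS
  uv := h.wv
  uv' := h.wv'
  wS := h.uS
  wv := h.uv
  wv' := h.uv'
  coord := fun x => by conv_lhs => rw [h.coord x]; rw [add_comm]
  c1u := h.c2w
  c2u := h.c1w
  c1w := h.c2u
  c2w := h.c1u
  nn := fun s h1 h2 h3 => (h.nn s h1 h2 h3).symm
  one := fun s h1 h2 h3 => by rw [add_comm]; exact h.one s h1 h2 h3
  strict := fun s h1 h2 h3 h4 h5 => by
    obtain ⟨a, b, c⟩ := h.strict s h1 h2 h3 h5 h4
    exact ⟨b, a, by rw [add_comm]; exact c⟩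
  uw' := fun he => h.uw' (by rw [he, neg_neg])
  nst := h.nst

/-- the points other than `± v` -/
noncomputable def rest (S : Finset E2) (v : E2) : Finset E2 := (S.erase v).erase (-v)

lemma mem_rest {S : Finset E2} {v s : E2} : s ∈ rest S v ↔ s ≠ -v ∧ s ≠ v ∧ s ∈ S := by
  unfold rest
  rw [Finset.mem_erase, Finset.mem_erase]

lemma rest_symm {S : Finset E2} (h : ∀ s ∈ S, -s ∈ S) {v : E2} : ∀ s ∈ rest S v, -s ∈ rest S v := by
  intro s hs
  rw [mem_rest] at hs ⊢
  refine ⟨fun he => hs.2.1 (neg_injective he), fun he => hs.1 (by rw [← he, neg_neg]), h s hs.2.2⟩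

lemma ins_rest {S : Finset E2} (h : ∀ s ∈ S, -s ∈ S) {v : E2} (hv : v ∈ S) :
    (S : Set E2) = insert v (insert (-v) (rest S v : Set E2)) := by
  ext x
  simp only [Finset.mem_coe, mem_insert_iff, mem_rest]
  constructor
  · intro hx
    by_cases h1 : x = v
    · exact Or.inl h1
    · by_cases h2 : x = -v
      · exact Or.inr (Or.inl h2)
      · exact Or.inr (Or.inr ⟨h2, h1, hx⟩)
  · rintro (rfl | rfl | h1)
    · exact hv
    · exact h v hv
    · exact h1.2.2

/-- **one side of the movement** -/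
theorem one_side {F S : Finset E2} {v u w : E2} {c1 c2 : E2 →ₗ[ℝ] ℝ} (h : Loc F S v u w c1 c2) :
    ∃ t1 : ℝ, 0 < t1 ∧ (∀ t, 0 ≤ t → t ≤ t1 → Ear (v + t • (w - u)) u w (rest S v : Set E2)) ∧
      ∃ T : Finset E2, Cf F T ∧ Less F T S ∧
        convexHull ℝ (insert (v + t1 • (w - u)) (insert (-(v + t1 • (w - u)))
          (rest S v : Set E2))) = convexHull ℝ (T : Set E2) := by
  classical
  have hC := h.cf
  set R := ((rest S v).erase u).erase w with hR
  have hRm : ∀ s ∈ R, s ∈ S ∧ s ≠ v ∧ s ≠ -v ∧ s ≠ u ∧ s ≠ w := by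
    intro s hs
    rw [hR, Finset.mem_erase, Finset.mem_erase, mem_rest] at hs
    exact ⟨hs.2.2.2.2, hs.2.2.2.1, hs.2.2.1, hs.2.1, hs.1⟩
  have huw : u ≠ w := by
    intro he
    have := h.c1u
    rw [he, h.c1w] at this
    exact zero_ne_one this
  have hur : u ∈ rest S v := mem_rest.2 ⟨h.uv', h.uv, h.uS⟩
  have hwr : w ∈ rest S v := mem_rest.2 ⟨h.wv', h.wv, h.wS⟩
  have hrs := rest_symm hC.symm (v := v)
  have hu0 : u ≠ 0 := by
    intro he
    -- then `w` and `-w` would both be beyond
    have h1 := h.one (-w) (hC.symm w h.wS) (fun e => h.wv' (by rw [← e, neg_neg]))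
      (fun e => h.wv (neg_injective e))
    have h2 := h.one w h.wS h.wv h.wv'
    by_cases hww : -w = w
    · have : w = 0 := by
        have h3 : (2:ℝ) • w = 0 := by
          rw [two_smul]; nth_rewrite 1 [← hww]; simp
        simpa using h3
      exact huw (by rw [he, this])
    · have h3 := h.strict (-w) (hC.symm w h.wS) (fun e => h.wv' (by rw [← e, neg_neg]))
        (fun e => h.wv (neg_injective e)) (fun e => by
          apply huw
          have : w = 0 := by rw [← neg_neg w, e, he, neg_zero]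
          rw [he, this]) hww
      have h4 := h.c1u
      have h5 := h.c2u
      rw [he] at h4 h5
      have e1 : c1 (-w - v) = 2 * c1 (0 - v) - c1 (w - v) := by
        have : -w - v = (2:ℝ) • (0 - v) - (w - v) := by module
        rw [this, map_sub, map_smul, smul_eq_mul]
      have e2 : c2 (-w - v) = 2 * c2 (0 - v) - c2 (w - v) := by
        have : -w - v = (2:ℝ) • (0 - v) - (w - v) := by module
        rw [this, map_sub, map_smul, smul_eq_mul]
      rw [h4, h.c1w] at e1
      rw [h5, h.c2w] at e2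
      linarith [h3.2.1]
  have hnu : -u ∈ R := by
    rw [hR, Finset.mem_erase, Finset.mem_erase]
    refine ⟨fun e => h.uw' (by rw [← e, neg_neg]), fun e => ?_, hrs u hur⟩
    apply hu0
    have h3 : (2:ℝ) • u = 0 := by
      rw [two_smul]; nth_rewrite 1 [← e]; simp
    simpa using h3
  obtain ⟨s1, hs1R, hs1⟩ := R.exists_min_image
    (fun s => c1 (s - v) / (c1 (s - v) + c2 (s - v) - 1)) ⟨_, hnu⟩
  obtain ⟨m1, n1v, n1v', n1u, n1w⟩ := hRm s1 hs1R
  have st1 := h.strict s1 m1 n1v n1v' n1u n1w
  set t1 := c1 (s1 - v) / (c1 (s1 - v) + c2 (s1 - v) - 1) with ht1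
  have ht1p : 0 < t1 := div_pos st1.1 (by linarith [st1.2.2])
  have hcs : ∀ s : E2, s = v + c1 (s - v) • (u - v) + c2 (s - v) • (w - v) := by
    intro s
    have := h.coord (s - v)
    rw [add_assoc, ← this]; abel
  -- coordinates with respect to the moved vertex
  have hcoordt : ∀ (t : ℝ) (s : E2), s = (v + t • (w - u)) +
      (c1 (s - v) - t * (c1 (s - v) + c2 (s - v) - 1)) • (u - (v + t • (w - u))) +
      (c2 (s - v) + t * (c1 (s - v) + c2 (s - v) - 1)) • (w - (v + t • (w - u))) := by
    intro t s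
    conv_lhs => rw [hcs s]
    module
  have hα : ∀ t, t ≤ t1 → ∀ s ∈ rest S v, 0 ≤ c1 (s - v) - t * (c1 (s - v) + c2 (s - v) - 1) := by
    intro t ht s hs
    by_cases hsu : s = u
    · rw [hsu, h.c1u, h.c2u]; norm_num
    by_cases hsw : s = w
    · rw [hsw, h.c1w, h.c2w]; norm_num
    rw [mem_rest] at hs
    have h3 := h.strict s hs.2.2 hs.2.1 hs.1 hsu hsw
    have h4 := hs1 s (by
      rw [hR, Finset.mem_erase, Finset.mem_erase, mem_rest]
      exact ⟨hsw, hsu, hs⟩)
    have h5 : t ≤ c1 (s - v) / (c1 (s - v) + c2 (s - v) - 1) := ht.trans h4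
    rw [le_div_iff₀ (by linarith [h3.2.2])] at h5
    linarith
  have hγ : ∀ t, 0 ≤ t → ∀ s ∈ rest S v, 0 ≤ c2 (s - v) + t * (c1 (s - v) + c2 (s - v) - 1) := by
    intro t ht s hs
    rw [mem_rest] at hs
    have h1 := h.nn s hs.2.2 hs.2.1 hs.1
    have h2 := h.one s hs.2.2 hs.2.1 hs.1
    have : 0 ≤ t * (c1 (s - v) + c2 (s - v) - 1) := mul_nonneg ht (by linarith)
    linarith [h1.2]
  refine ⟨t1, ht1p, ?_, ?_⟩
  · intro t hta htb s hs
    have hs' : s ∈ rest S v := hs
    have h2 := hs'
    rw [mem_rest] at h2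
    exact ⟨_, _, hα t htb s hs', hγ t hta s hs', by linarith [h.one s h2.2.2 h2.2.1 h2.1],
      hcoordt t s⟩
  set v1 := v + t1 • (w - u) with hv1
  -- the two support lines through the moved vertex
  set al : E2 → ℝ := fun s => c1 (s - v) - t1 * (c1 (s - v) + c2 (s - v) - 1) with hal
  set ga : E2 → ℝ := fun s => c2 (s - v) + t1 * (c1 (s - v) + c2 (s - v) - 1) with hga
  have hcc : ∀ s, s = v1 + al s • (u - v1) + ga s • (w - v1) := fun s => hcoordt t1 s
  have alu : al u = 1 := by simp only [hal]; rw [h.c1u, h.c2u]; ring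
  have alw : al w = 0 := by simp only [hal]; rw [h.c1w, h.c2w]; ring
  have gau : ga u = 0 := by simp only [hga]; rw [h.c1u, h.c2u]; ring
  have gaw : ga w = 1 := by simp only [hga]; rw [h.c1w, h.c2w]; ring
  have alneg : ∀ s, al (-s) = 2 * al 0 - al s := by
    intro s
    simp only [hal]
    have e : -s - v = (2:ℝ) • (0 - v) - (s - v) := by module
    rw [e]
    simp only [map_sub, map_smul, smul_eq_mul]
    ring
  have ganeg : ∀ s, ga (-s) = 2 * ga 0 - ga s := by
    intro s
    simp only [hga]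
    have e : -s - v = (2:ℝ) • (0 - v) - (s - v) := by module
    rw [e]
    simp only [map_sub, map_smul, smul_eq_mul]
    ring
  have al0 : 1 / 2 ≤ al 0 := by
    have h1 := hα t1 le_rfl (-u) (hrs u hur)
    have h2 := alneg u
    have h3 : 0 ≤ al (-u) := h1
    rw [h2, alu] at h3
    linarith
  have ga0 : 1 / 2 ≤ ga 0 := by
    have h1 := hγ t1 ht1p.le (-w) (hrs w hwr)
    have h2 := ganeg w
    have h3 : 0 ≤ ga (-w) := h1
    rw [h2, gaw] at h3
    linarith
  have als1 : al s1 = 0 := by
    simp only [hal]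
    rw [ht1, div_mul_cancel₀ _ (by linarith [st1.2.2] : c1 (s1 - v) + c2 (s1 - v) - 1 ≠ 0)]
    ring
  have hs1w : s1 ≠ -w := by
    intro he
    have h1 := alneg w
    rw [← he, als1, alw] at h1
    linarith
  -- `w` is between `v1` and `s1`
  have hs1eq : s1 = v1 + (c1 (s1 - v) + c2 (s1 - v)) • (w - v1) := by
    have h1 := hcc s1
    have h2 : ga s1 = c1 (s1 - v) + c2 (s1 - v) := by
      have : al s1 + ga s1 = c1 (s1 - v) + c2 (s1 - v) := by simp only [hal, hga]; ring
      rw [als1, zero_add] at this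
      exact this
    rw [als1, zero_smul, add_zero, h2] at h1
    exact h1
  -- linear functionals
  have linal : ∃ g : E2 →ₗ[ℝ] ℝ, ∀ x, g x = 1 - al x / al 0 := by
    refine ⟨-(1 / al 0) • (c1 - t1 • (c1 + c2)), fun x => ?_⟩
    have h0 : al 0 ≠ 0 := by linarith
    simp only [LinearMap.smul_apply, LinearMap.sub_apply, LinearMap.add_apply, smul_eq_mul]
    field_simp
    simp only [hal, map_sub, map_zero]
    ring
  have linga : ∃ g : E2 →ₗ[ℝ] ℝ, ∀ x, g x = 1 - ga x / ga 0 := by
    refine ⟨-(1 / ga 0) • (c2 + t1 • (c1 + c2)), fun x => ?_⟩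
    have h0 : ga 0 ≠ 0 := by linarith
    simp only [LinearMap.smul_apply, LinearMap.add_apply, smul_eq_mul]
    field_simp
    simp only [hga, map_sub, map_zero]
    ring
  have alv1 : al v1 = 0 := by
    simp only [hal, hv1]
    rw [add_sub_cancel_left]
    have e : w - u = (w - v) - (u - v) := by abel
    rw [e]
    simp only [map_smul, map_sub c1 (w - v), map_sub c2 (w - v), h.c1u, h.c2u, h.c1w, h.c2w,
      smul_eq_mul]
    ring
  have gav1 : ga v1 = 0 := by
    simp only [hga, hv1]
    rw [add_sub_cancel_left]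
    have e : w - u = (w - v) - (u - v) := by abel
    rw [e]
    simp only [map_smul, map_sub c1 (w - v), map_sub c2 (w - v), h.c1u, h.c2u, h.c1w, h.c2w,
      smul_eq_mul]
    ring
  -- the marks of the moved configuration, over the full set
  have hmark : ∀ f ∈ F, ∃ g : E2 →ₗ[ℝ] ℝ, g f = 1 ∧ (∀ s ∈ rest S v, g s ≤ 1) ∧ g v1 ≤ 1 ∧
      g (-v1) ≤ 1 := by
    have key1 : ∀ f : E2, f = w → ∃ g : E2 →ₗ[ℝ] ℝ, g f = 1 ∧ (∀ s ∈ rest S v, g s ≤ 1) ∧
        g v1 ≤ 1 ∧ g (-v1) ≤ 1 := by
      intro f hf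
      obtain ⟨g, hg⟩ := linal
      have hp : 0 < al 0 := by linarith
      refine ⟨g, by rw [hg, hf, alw]; simp, fun s hs => ?_, by rw [hg, alv1]; simp, ?_⟩
      · rw [hg]
        have := div_nonneg (hα t1 le_rfl s hs) hp.le
        linarith
      · rw [hg, alneg, alv1]
        have : 0 ≤ (2 * al 0 - 0) / al 0 := by rw [sub_zero]; positivity
        linarith
    have key2 : ∀ f : E2, f = u → ∃ g : E2 →ₗ[ℝ] ℝ, g f = 1 ∧ (∀ s ∈ rest S v, g s ≤ 1) ∧
        g v1 ≤ 1 ∧ g (-v1) ≤ 1 := by
      intro f hf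
      obtain ⟨g, hg⟩ := linga
      have hp : 0 < ga 0 := by linarith
      refine ⟨g, by rw [hg, hf, gau]; simp, fun s hs => ?_, by rw [hg, gav1]; simp, ?_⟩
      · rw [hg]
        have := div_nonneg (hγ t1 ht1p.le s hs) hp.le
        linarith
      · rw [hg, ganeg, gav1]
        have : 0 ≤ (2 * ga 0 - 0) / ga 0 := by rw [sub_zero]; positivity
        linarith
    have keyneg : ∀ f : E2, (∃ g : E2 →ₗ[ℝ] ℝ, g (-f) = 1 ∧ (∀ s ∈ rest S v, g s ≤ 1) ∧
        g v1 ≤ 1 ∧ g (-v1) ≤ 1) → ∃ g : E2 →ₗ[ℝ] ℝ, g f = 1 ∧ (∀ s ∈ rest S v, g s ≤ 1) ∧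
        g v1 ≤ 1 ∧ g (-v1) ≤ 1 := by
      rintro f ⟨g, g1, g2, g3, g4⟩
      refine ⟨-g, ?_, fun s hs => ?_, ?_, ?_⟩
      · rw [LinearMap.neg_apply, ← map_neg]; exact g1
      · rw [LinearMap.neg_apply, ← map_neg]; exact g2 _ (hrs s hs)
      · rw [LinearMap.neg_apply, ← map_neg]; exact g4
      · rw [LinearMap.neg_apply, ← map_neg, neg_neg]; exact g3
    intro f hf
    by_cases h1 : f = w
    · exact key1 f h1
    by_cases h2 : f = u
    · exact key2 f h2
    by_cases h3 : -f = w
    · exact keyneg f (key1 _ h3)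
    by_cases h4 : -f = u
    · exact keyneg f (key2 _ h4)
    obtain ⟨g, hgf, hgS⟩ := hC.mark f hf
    have hgS' : ∀ s ∈ S, -1 ≤ g s := by
      intro s hs
      have := hgS _ (hC.symm s hs)
      rw [map_neg] at this
      linarith
    have hfS := hC.sub hf
    have hfv : f ≠ v := fun e => h.vF (e ▸ hf)
    have hfv' : f ≠ -v := fun e => h.vF (by
      have := hC.symF f hf
      rwa [e, neg_neg] at this)
    have hnfv : -f ≠ v := fun e => hfv' (by rw [← e, neg_neg])
    have hnfv' : -f ≠ -v := fun e => hfv (neg_injective e)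
    have hgu := hgS u h.uS
    have hgw := hgS w h.wS
    have hgu' := hgS' u h.uS
    have hgw' := hgS' w h.wS
    have hval : ∀ s, g s = (1 - (al s + ga s)) * g v1 + al s * g u + ga s * g w := by
      intro s
      conv_lhs => rw [hcc s]
      simp only [map_add, map_smul, map_sub, smul_eq_mul]
      ring
    have hsum : ∀ s, al s + ga s = c1 (s - v) + c2 (s - v) := by
      intro s; simp only [hal, hga]; ring
    refine ⟨g, hgf, fun s hs => hgS s (mem_rest.1 hs).2.2, ?_, ?_⟩
    · have hfr : f ∈ rest S v := mem_rest.2 ⟨hfv', hfv, hfS⟩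
      have a1 : 0 ≤ al f := hα t1 le_rfl f hfr
      have a2 : 0 ≤ ga f := hγ t1 ht1p.le f hfr
      have a3 : 1 < al f + ga f := by rw [hsum]; exact (h.strict f hfS hfv hfv' h2 h1).2.2
      have a4 := hval f
      rw [hgf] at a4
      have a5 : al f * g u ≤ al f := by
        have := mul_nonneg a1 (by linarith : 0 ≤ 1 - g u)
        linarith [mul_sub (al f) 1 (g u)]
      have a6 : ga f * g w ≤ ga f := by
        have := mul_nonneg a2 (by linarith : 0 ≤ 1 - g w)
        linarith [mul_sub (ga f) 1 (g w)]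
      by_contra hcon
      push Not at hcon
      have a7 : 0 < (al f + ga f - 1) * (g v1 - 1) := mul_pos (by linarith) (by linarith)
      have a8 : (al f + ga f - 1) * (g v1 - 1) =
          -((1 - (al f + ga f)) * g v1) - (al f + ga f) + 1 := by ring
      linarith
    · have hfr : -f ∈ rest S v := mem_rest.2 ⟨hnfv', hnfv, hC.symm f hfS⟩
      have a1 : 0 ≤ al (-f) := hα t1 le_rfl _ hfr
      have a2 : 0 ≤ ga (-f) := hγ t1 ht1p.le _ hfr
      have a3 : 1 < al (-f) + ga (-f) := by
        rw [hsum]; exact (h.strict _ (hC.symm f hfS) hnfv hnfv' h4 h3).2.2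
      have a4 := hval (-f)
      rw [map_neg, hgf] at a4
      have a5 : -al (-f) ≤ al (-f) * g u := by
        have := mul_nonneg a1 (by linarith : 0 ≤ 1 + g u)
        linarith [mul_add (al (-f)) 1 (g u)]
      have a6 : -ga (-f) ≤ ga (-f) * g w := by
        have := mul_nonneg a2 (by linarith : 0 ≤ 1 + g w)
        linarith [mul_add (ga (-f)) 1 (g w)]
      rw [map_neg]
      by_contra hcon
      push Not at hcon
      have a7 : 0 < (al (-f) + ga (-f) - 1) * (-g v1 - 1) := mul_pos (by linarith) (by linarith)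
      have a8 : (al (-f) + ga (-f) - 1) * (-g v1 - 1) =
          (1 - (al (-f) + ga (-f))) * g v1 - (al (-f) + ga (-f)) + 1 := by ring
      linarith
  have hnv : -v ∈ S := hC.symm v h.vS
  have hvF' : -v ∉ F := fun hh => h.vF (by
    have := hC.symF _ hh
    rwa [neg_neg] at this)
  have hvne : v ≠ -v := by
    intro e
    apply h.v0
    have h3 : (2:ℝ) • v = 0 := by
      rw [two_smul]; nth_rewrite 2 [e]; simp
    simpa using h3
  have hFr : ∀ f ∈ F, f ∈ rest S v := fun f hf =>
    mem_rest.2 ⟨fun e => hvF' (e ▸ hf), fun e => h.vF (e ▸ hf), hC.sub hf⟩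
  -- cardinality of `S \ F`
  have hcardS : (rest S v \ F).card + 2 ≤ (S \ F).card := by
    have h1 : insert v (insert (-v) (rest S v \ F)) ⊆ S \ F := by
      intro x hx
      rw [Finset.mem_insert, Finset.mem_insert, Finset.mem_sdiff] at hx
      rw [Finset.mem_sdiff]
      rcases hx with rfl | rfl | hx
      · exact ⟨h.vS, h.vF⟩
      · exact ⟨hnv, hvF'⟩
      · exact ⟨(mem_rest.1 hx.1).2.2, hx.2⟩
    have h2 := Finset.card_le_card h1
    rw [Finset.card_insert_of_notMem, Finset.card_insert_of_notMem] at h2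
    · exact h2
    · rw [Finset.mem_sdiff, mem_rest]; tauto
    · rw [Finset.mem_insert, Finset.mem_sdiff, mem_rest]; tauto
  by_cases hwF : w ∈ F
  · -- the neighbour is marked
    set T : Finset E2 := insert v1 (insert (-v1) (rest S v)) with hT
    have hTc : (T : Set E2) = insert v1 (insert (-v1) (rest S v : Set E2)) := by
      rw [hT]; simp only [Finset.coe_insert]
    have hTs : ∀ s ∈ T, -s ∈ T := by
      intro s hs
      rw [hT, Finset.mem_insert, Finset.mem_insert] at hs ⊢
      rcases hs with rfl | rfl | hs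
      · exact Or.inr (Or.inl rfl)
      · exact Or.inl (neg_neg _)
      · exact Or.inr (Or.inr (hrs s hs))
    refine ⟨T, ⟨hTs, hC.symF, fun f hf => ?_, fun f hf => ?_⟩, ?_, by rw [hTc]⟩
    · rw [hT, Finset.mem_insert, Finset.mem_insert]
      exact Or.inr (Or.inr (hFr f hf))
    · obtain ⟨g, g1, g2, g3, g4⟩ := hmark f hf
      refine ⟨g, g1, fun s hs => ?_⟩
      rw [hT, Finset.mem_insert, Finset.mem_insert] at hs
      rcases hs with rfl | rfl | hs
      · exact g3
      · exact g4
      · exact g2 s hs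
    · right
      constructor
      · have h1 : T \ F ⊆ insert v1 (insert (-v1) (rest S v \ F)) := by
          intro x hx
          rw [Finset.mem_sdiff, hT, Finset.mem_insert, Finset.mem_insert] at hx
          rw [Finset.mem_insert, Finset.mem_insert, Finset.mem_sdiff]
          tauto
        have h2 := Finset.card_le_card h1
        have h3 := Finset.card_insert_le v1 (insert (-v1) (rest S v \ F))
        have h4 := Finset.card_insert_le (-v1) (rest S v \ F)
        omega
      · have hst1 : Stuck F T v1 := by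
          refine ⟨w, hwF, s1, ?_, _, st1.2.2, hs1eq⟩
          rw [hT, Finset.mem_insert, Finset.mem_insert, mem_rest]
          exact Or.inr (Or.inr ⟨n1v', n1v, m1⟩)
        have hst1' : Stuck F T (-v1) := by
          obtain ⟨f, hf, s, hs, γ, hγ, he⟩ := hst1
          exact ⟨-f, hC.symF f hf, -s, hTs s hs, γ, hγ, by rw [he]; module⟩
        have hsub : ns F T ⊆ (ns F S).erase v := by
          intro y hy
          unfold ns at hy ⊢
          rw [Finset.mem_filter, Finset.mem_sdiff, hT, Finset.mem_insert, Finset.mem_insert] at hy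
          obtain ⟨⟨hy1, hyF⟩, hyns⟩ := hy
          rw [← hT] at hyns
          rcases hy1 with rfl | rfl | hy1
          · exact absurd hst1 hyns
          · exact absurd hst1' hyns
          rw [mem_rest] at hy1
          rw [Finset.mem_erase, Finset.mem_filter, Finset.mem_sdiff]
          refine ⟨hy1.2.1, ⟨hy1.2.2, hyF⟩, fun hst => hyns ?_⟩
          obtain ⟨f, hf, s, hs, γ, hγ, he⟩ := hst
          have hγ1 : 0 < γ - 1 := by linarith
          by_cases hsv : s = v
          · exfalso
            apply h.nst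
            refine ⟨f, hf, y, hy1.2.2, γ / (γ - 1), ?_, ?_⟩
            · rw [lt_div_iff₀ hγ1]; linarith
            · rw [← hsv, he]
              have e : y + γ • (f - y) + (γ / (γ - 1)) • (f - (y + γ • (f - y))) =
                  y + (γ - (γ / (γ - 1)) * (γ - 1)) • (f - y) := by module
              rw [e, div_mul_cancel₀ _ hγ1.ne', sub_self, zero_smul, add_zero]
          by_cases hsv' : s = -v
          · exfalso
            apply h.nst
            refine ⟨-f, hC.symF f hf, -y, hC.symm y hy1.2.2, γ / (γ - 1), ?_, ?_⟩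
            · rw [lt_div_iff₀ hγ1]; linarith
            · have hv' : v = -s := by rw [hsv', neg_neg]
              rw [hv', he]
              have e : -(y + γ • (f - y)) + (γ / (γ - 1)) • (-f - -(y + γ • (f - y))) =
                  -y + (γ - (γ / (γ - 1)) * (γ - 1)) • (-f + y) := by module
              rw [e, div_mul_cancel₀ _ hγ1.ne', sub_self, zero_smul, add_zero]
          refine ⟨f, hf, s, ?_, γ, hγ, he⟩
          rw [hT, Finset.mem_insert, Finset.mem_insert, mem_rest]
          exact Or.inr (Or.inr ⟨hsv', hsv, hs⟩)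
        have hvns : v ∈ ns F S := by
          unfold ns
          rw [Finset.mem_filter, Finset.mem_sdiff]
          exact ⟨⟨h.vS, h.vF⟩, h.nst⟩
        have h1 := Finset.card_le_card hsub
        have h2 := Finset.card_erase_lt_of_mem hvns
        omega
  · -- the neighbour is not marked and disappears
    have hwF' : -w ∉ F := fun hh => hwF (by
      have := hC.symF _ hh
      rwa [neg_neg] at this)
    set Q : Finset E2 := ((rest S v).erase w).erase (-w) with hQ
    have hQm : ∀ s, s ∈ Q ↔ s ≠ -w ∧ s ≠ w ∧ s ∈ rest S v := by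
      intro s; rw [hQ, Finset.mem_erase, Finset.mem_erase]
    have hQs : ∀ s ∈ Q, -s ∈ Q := by
      intro s hs
      rw [hQm] at hs ⊢
      exact ⟨fun e => hs.2.1 (neg_injective e), fun e => hs.1 (by rw [← e, neg_neg]),
        hrs s hs.2.2⟩
    set T : Finset E2 := insert v1 (insert (-v1) Q) with hT
    have hTs : ∀ s ∈ T, -s ∈ T := by
      intro s hs
      rw [hT, Finset.mem_insert, Finset.mem_insert] at hs ⊢
      rcases hs with rfl | rfl | hs
      · exact Or.inr (Or.inl rfl)
      · exact Or.inl (neg_neg _)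
      · exact Or.inr (Or.inr (hQs s hs))
    refine ⟨T, ⟨hTs, hC.symF, fun f hf => ?_, fun f hf => ?_⟩, ?_, ?_⟩
    · rw [hT, Finset.mem_insert, Finset.mem_insert, hQm]
      exact Or.inr (Or.inr ⟨fun e => hwF' (e ▸ hf), fun e => hwF (e ▸ hf), hFr f hf⟩)
    · obtain ⟨g, g1, g2, g3, g4⟩ := hmark f hf
      refine ⟨g, g1, fun s hs => ?_⟩
      rw [hT, Finset.mem_insert, Finset.mem_insert, hQm] at hs
      rcases hs with rfl | rfl | hs
      · exact g3
      · exact g4
      · exact g2 s hs.2.2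
    · left
      have h1 : T \ F ⊆ insert v1 (insert (-v1) ((rest S v \ F).erase w)) := by
        intro x hx
        rw [Finset.mem_sdiff, hT, Finset.mem_insert, Finset.mem_insert, hQm] at hx
        rw [Finset.mem_insert, Finset.mem_insert, Finset.mem_erase, Finset.mem_sdiff]
        tauto
      have h2 := Finset.card_le_card h1
      have h3 := Finset.card_insert_le v1 (insert (-v1) ((rest S v \ F).erase w))
      have h4 := Finset.card_insert_le (-v1) ((rest S v \ F).erase w)
      have h5 := Finset.card_erase_lt_of_mem (Finset.mem_sdiff.2 ⟨hwr, hwF⟩)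
      omega
    · have hTc : (T : Set E2) = insert v1 (insert (-v1) (Q : Set E2)) := by
        rw [hT]; simp only [Finset.coe_insert]
      have hs1T : s1 ∈ (T : Set E2) := by
        rw [hTc]
        exact Or.inr (Or.inr ((hQm s1).2 ⟨hs1w, n1w, mem_rest.2 ⟨n1v', n1v, m1⟩⟩))
      have hwT : w ∈ convexHull ℝ (T : Set E2) := by
        refine seg_mem (convex_convexHull ℝ _) (subset_convexHull ℝ _ ?_)
          (subset_convexHull ℝ _ hs1T) st1.2.2.le hs1eq
        rw [hTc]; exact Or.inl rfl
      apply hull_absorb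
      · rw [hTc]
        refine insert_subset_insert (insert_subset_insert ?_)
        intro x hx
        exact ((hQm x).1 hx).2.2
      · intro x hx
        rcases hx with hx | hx | hx
        · exact subset_convexHull ℝ _ (by rw [hTc]; exact Or.inl hx)
        · exact subset_convexHull ℝ _ (by rw [hTc]; exact Or.inr (Or.inl hx))
        · by_cases hxw : x = w
          · rw [hxw]; exact hwT
          by_cases hxw' : x = -w
          · rw [hxw']; exact neg_mem_hull hTs hwT
          exact subset_convexHull ℝ _ (by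
            rw [hTc]; exact Or.inr (Or.inr ((hQm x).2 ⟨hxw', hxw, hx⟩)))

end Pool.Agent.TH922.PL
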