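import Pool.Agent.TH922.PL.A2

set_option autoImplicit false

/-!
Existence of the local data at a movable vertex (helper922).
-/

open MeasureTheory Set Filter
open scoped ENNReal Topology Matrix

namespace Pool.Agent.TH922.PL

open Pool.Agent.H131R5.LM Pool.Agent.H131R5.LC Pool.Agent.W679.A

/-- the unmarked points are irredundant -/
def Irr (F S : Finset E2) : Prop :=
  ∀ s ∈ S, s ∉ F → s ∉ convexHull ℝ ((S.erase s : Finset E2) : Set E2)

lemma Cf.zero_notMem {F S : Finset E2} (hC : Cf F S) (hI : Irr F S) (h2 : 2 ≤ S.card) :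
    (0 : E2) ∉ S := by
  classical
  intro h0
  by_cases hF : (0 : E2) ∈ F
  · obtain ⟨g, hg, _⟩ := hC.mark 0 hF
    rw [map_zero] at hg
    exact zero_ne_one hg
  · apply hI 0 h0 hF
    apply zero_mem_hull
    · intro s hs
      rw [Finset.mem_coe, Finset.mem_erase] at hs ⊢
      exact ⟨neg_ne_zero.2 hs.1, hC.symm s hs.2⟩
    · rw [Finset.coe_nonempty, ← Finset.card_pos, Finset.card_erase_of_mem h0]
      omega

theorem exists_loc {F S : Finset E2} (hC : Cf F S) (hI : Irr F S) (h5 : 5 ≤ S.card)
    (hi : (interior (convexHull ℝ (S : Set E2))).Nonempty) {v : E2} (hv : v ∈ S) (hvF : v ∉ F)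
    (hst : ¬ Stuck F S v) : ∃ u w : E2, ∃ c1 c2 : E2 →ₗ[ℝ] ℝ, Loc F S v u w c1 c2 := by
  classical
  have h0S := hC.zero_notMem hI (by omega)
  have hv0 : v ≠ 0 := fun e => h0S (e ▸ hv)
  have hrs := rest_symm hC.symm (v := v)
  have hcard : 3 ≤ (rest S v).card := by
    unfold rest
    have h1 := Finset.pred_card_le_card_erase (s := S.erase v) (a := -v)
    have h2 := Finset.pred_card_le_card_erase (s := S) (a := v)
    omega
  have hrne : (rest S v).Nonempty := Finset.card_pos.1 (by omega)
  have hvr : v ∉ convexHull ℝ (rest S v : Set E2) := by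
    intro hh
    apply hI v hv hvF
    refine convexHull_mono ?_ hh
    intro x hx
    have hx' := mem_rest.1 (Finset.mem_coe.1 hx)
    rw [Finset.mem_coe, Finset.mem_erase]
    exact ⟨hx'.2.1, hx'.2.2⟩
  obtain ⟨u0, hu0, w0, hw0, c1, c2, hco, hu1, hu2, hw1, hw2, hnn⟩ :=
    neighbours (n := 2) (W := ⊤) (by simp) (v := v) trivial (S := rest S v)
      (fun s _ => trivial) hrne hvr (by
        intro g hg x _
        obtain ⟨s0, hs0⟩ := hrne
        have hgv : g v = 0 := by
          have e1 := hg s0 hs0
          have e2 := hg (-s0) (hrs s0 hs0)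
          rw [map_sub] at e1
          rw [map_sub, map_neg] at e2
          linarith
        have hgs : ∀ s ∈ S, g s = 0 := by
          intro s hs
          by_cases h1 : s = v
          · rw [h1, hgv]
          by_cases h2 : s = -v
          · rw [h2, map_neg, hgv, neg_zero]
          · have := hg s (mem_rest.2 ⟨h2, h1, hs⟩)
            rw [map_sub, hgv, sub_zero] at this
            exact this
        refine lin_zero hi g (fun y hy => ?_) x
        have hcv : Convex ℝ {y | g y = 0} := by
          intro a ha b hb s t _ _ _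
          simp only [mem_ofPred_eq] at ha hb ⊢
          rw [map_add, map_smul, map_smul, ha, hb]; simp
        exact convexHull_min (fun s hs => hgs s hs) hcv hy)
  have hco' : ∀ x : E2, x = c1 x • (u0 - v) + c2 x • (w0 - v) := fun x => hco x trivial
  -- nearest points on the two rays
  obtain ⟨u, huR, humin⟩ := ((rest S v).filter fun s => c2 (s - v) = 0).exists_min_image
    (fun s => c1 (s - v)) ⟨u0, by rw [Finset.mem_filter]; exact ⟨hu0, hu2⟩⟩
  obtain ⟨w, hwR, hwmin⟩ := ((rest S v).filter fun s => c1 (s - v) = 0).exists_min_image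
    (fun s => c2 (s - v)) ⟨w0, by rw [Finset.mem_filter]; exact ⟨hw0, hw1⟩⟩
  rw [Finset.mem_filter] at huR hwR
  obtain ⟨hur, huc⟩ := huR
  obtain ⟨hwr, hwc⟩ := hwR
  have hum := mem_rest.1 hur
  have hwm := mem_rest.1 hwr
  set a := c1 (u - v) with ha
  set b := c2 (w - v) with hb
  have huv : u - v = a • (u0 - v) := by
    have := hco' (u - v)
    rw [huc, zero_smul, add_zero] at this
    exact this
  have hwv : w - v = b • (w0 - v) := by
    have := hco' (w - v)
    rw [hwc, zero_smul, zero_add] at this
    exact this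
  have ha0 : 0 < a := by
    rcases (hnn u hur).1.lt_or_eq with h | h
    · exact h
    · exfalso
      have h' : a = 0 := h.symm
      rw [h', zero_smul] at huv
      exact hum.2.1 (sub_eq_zero.1 huv)
  have hb0 : 0 < b := by
    rcases (hnn w hwr).2.lt_or_eq with h | h
    · exact h
    · exfalso
      have h' : b = 0 := h.symm
      rw [h', zero_smul] at hwv
      exact hwm.2.1 (sub_eq_zero.1 hwv)
  set d1 : E2 →ₗ[ℝ] ℝ := (1 / a) • c1 with hd1
  set d2 : E2 →ₗ[ℝ] ℝ := (1 / b) • c2 with hd2
  have hd1v : ∀ x, d1 x = c1 x / a := by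
    intro x; rw [hd1, LinearMap.smul_apply, smul_eq_mul]; ring
  have hd2v : ∀ x, d2 x = c2 x / b := by
    intro x; rw [hd2, LinearMap.smul_apply, smul_eq_mul]; ring
  have hcoord : ∀ x : E2, x = d1 x • (u - v) + d2 x • (w - v) := by
    intro x
    rw [huv, hwv, hd1v, hd2v, smul_smul, smul_smul, div_mul_cancel₀ _ ha0.ne',
      div_mul_cancel₀ _ hb0.ne']
    exact hco' x
  have e1u : d1 (u - v) = 1 := by rw [hd1v]; exact div_self ha0.ne'
  have e2u : d2 (u - v) = 0 := by rw [hd2v, huc, zero_div]
  have e1w : d1 (w - v) = 0 := by rw [hd1v, hwc, zero_div]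
  have e2w : d2 (w - v) = 1 := by rw [hd2v]; exact div_self hb0.ne'
  have hnn' : ∀ s ∈ S, s ≠ v → s ≠ -v → 0 ≤ d1 (s - v) ∧ 0 ≤ d2 (s - v) := by
    intro s hs h1 h2
    have := hnn s (mem_rest.2 ⟨h2, h1, hs⟩)
    rw [hd1v, hd2v]
    exact ⟨div_nonneg this.1 ha0.le, div_nonneg this.2 hb0.le⟩
  have hcs : ∀ s : E2, s = v + d1 (s - v) • (u - v) + d2 (s - v) • (w - v) := by
    intro s
    have := hcoord (s - v)
    rw [add_assoc, ← this]; abel
  have hgval : ∀ (g : E2 →ₗ[ℝ] ℝ) (s : E2), g s = (1 - d1 (s - v) - d2 (s - v)) * g v +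
      d1 (s - v) * g u + d2 (s - v) * g w := by
    intro g s
    conv_lhs => rw [hcs s]
    simp only [map_add, map_smul, smul_eq_mul, map_sub g]
    ring
  have hmemh : ∀ s x, x ∈ S → x ≠ s →
      x ∈ convexHull ℝ ((S.erase s : Finset E2) : Set E2) := by
    intro s x hx hxs
    apply subset_convexHull ℝ _
    rw [Finset.mem_coe, Finset.mem_erase]
    exact ⟨hxs, hx⟩
  have hone : ∀ s ∈ S, s ≠ v → s ≠ -v → 1 ≤ d1 (s - v) + d2 (s - v) := by
    intro s hs h1 h2
    have hsr : s ∈ rest S v := mem_rest.2 ⟨h2, h1, hs⟩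
    have hn := hnn' s hs h1 h2
    rcases hn.2.lt_or_eq with h3 | h3
    · rcases hn.1.lt_or_eq with h4 | h4
      · by_contra hcon
        push Not at hcon
        have hsu : s ≠ u := by
          rintro rfl; rw [e2u] at h3; exact lt_irrefl _ h3
        have hsw : s ≠ w := by
          rintro rfl; rw [e1w] at h4; exact lt_irrefl _ h4
        by_cases hsF : s ∈ F
        · obtain ⟨g, hg1, hg2⟩ := hC.mark s hsF
          have q1 := hgval g s
          rw [hg1] at q1
          have q2 := hg2 v hv
          have q3 := hg2 u hum.2.2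
          have q4 := hg2 w hwm.2.2
          have q5 : 0 ≤ (1 - d1 (s - v) - d2 (s - v)) * (1 - g v) :=
            mul_nonneg (by linarith) (by linarith)
          have q6 : 0 ≤ d1 (s - v) * (1 - g u) := mul_nonneg h4.le (by linarith)
          have q7 : 0 ≤ d2 (s - v) * (1 - g w) := mul_nonneg h3.le (by linarith)
          have q8 : (1 - d1 (s - v) - d2 (s - v)) * (1 - g v) + d1 (s - v) * (1 - g u) +
              d2 (s - v) * (1 - g w) = 0 := by linarith
          have r1 : (1 - d1 (s - v) - d2 (s - v)) * (1 - g v) = 0 := by linarith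
          have r2 : d1 (s - v) * (1 - g u) = 0 := by linarith
          have r3 : d2 (s - v) * (1 - g w) = 0 := by linarith
          have t1 : 1 - g v = 0 := by
            rcases mul_eq_zero.1 r1 with h | h
            · linarith
            · exact h
          have t2 : 1 - g u = 0 := by
            rcases mul_eq_zero.1 r2 with h | h
            · linarith
            · exact h
          have t3 : 1 - g w = 0 := by
            rcases mul_eq_zero.1 r3 with h | h
            · linarith
            · exact h
          have q9 := hgval g 0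
          rw [map_zero, (by linarith : g v = 1), (by linarith : g u = 1),
            (by linarith : g w = 1)] at q9
          linarith
        · exact hI s hs hsF (Tri_sub (convex_convexHull ℝ _) (hmemh s v hv (Ne.symm h1))
            (hmemh s u hum.2.2 (Ne.symm hsu)) (hmemh s w hwm.2.2 (Ne.symm hsw))
            ⟨_, _, hn.1, hn.2, hcon.le, hcs s⟩)
      · rw [← h4, zero_add]
        have h5 := hwmin s (by
          rw [Finset.mem_filter]
          refine ⟨hsr, ?_⟩
          have := h4.symm
          rw [hd1v, div_eq_zero_iff] at this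
          rcases this with h | h
          · exact h
          · exact absurd h ha0.ne')
        rw [hd2v, le_div_iff₀ hb0, one_mul]
        exact h5
    · rw [← h3, add_zero]
      have h5 := humin s (by
        rw [Finset.mem_filter]
        refine ⟨hsr, ?_⟩
        have := h3.symm
        rw [hd2v, div_eq_zero_iff] at this
        rcases this with h | h
        · exact h
        · exact absurd h hb0.ne')
      rw [hd1v, le_div_iff₀ ha0, one_mul]
      exact h5
  -- the value at the origin
  have hneg1 : ∀ s, d1 (-s - v) = 2 * d1 (0 - v) - d1 (s - v) := by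
    intro s
    have : -s - v = (2:ℝ) • (0 - v) - (s - v) := by module
    rw [this, map_sub, map_smul, smul_eq_mul]
  have hneg2 : ∀ s, d2 (-s - v) = 2 * d2 (0 - v) - d2 (s - v) := by
    intro s
    have : -s - v = (2:ℝ) • (0 - v) - (s - v) := by module
    rw [this, map_sub, map_smul, smul_eq_mul]
  have hzero : 1 ≤ d1 (0 - v) + d2 (0 - v) := by
    have h1 := mem_rest.1 (hrs u hur)
    have h2 := hone (-u) h1.2.2 h1.2.1 h1.1
    rw [hneg1, hneg2, e1u, e2u] at h2
    linarith
  have hstrict : ∀ s ∈ S, s ≠ v → s ≠ -v → s ≠ u → s ≠ w →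
      0 < d1 (s - v) ∧ 0 < d2 (s - v) ∧ 1 < d1 (s - v) + d2 (s - v) := by
    intro s hs h1 h2 hsu hsw
    have hn := hnn' s hs h1 h2
    have ho := hone s hs h1 h2
    have hc := hcs s
    have p2 : 0 < d2 (s - v) := by
      rcases hn.2.lt_or_eq with h3 | h3
      · exact h3
      · exfalso
        rw [← h3, zero_smul, add_zero] at hc
        rw [← h3, add_zero] at ho
        by_cases huF : u ∈ F
        · rcases ho.lt_or_eq with h4 | h4
          · exact hst ⟨u, huF, s, hs, _, h4, hc⟩
          · rw [← h4, one_smul] at hc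
            apply hsu; rw [hc]; abel
        · exact hI u hum.2.2 huF (seg_mem (convex_convexHull ℝ _)
            (hmemh u v hv (Ne.symm hum.2.1)) (hmemh u s hs hsu) ho hc)
    have p1 : 0 < d1 (s - v) := by
      rcases hn.1.lt_or_eq with h3 | h3
      · exact h3
      · exfalso
        rw [← h3, zero_smul, add_zero] at hc
        rw [← h3, zero_add] at ho
        by_cases hwF : w ∈ F
        · rcases ho.lt_or_eq with h4 | h4
          · exact hst ⟨w, hwF, s, hs, _, h4, hc⟩
          · rw [← h4, one_smul] at hc
            apply hsw; rw [hc]; abel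
        · exact hI w hwm.2.2 hwF (seg_mem (convex_convexHull ℝ _)
            (hmemh w v hv (Ne.symm hwm.2.1)) (hmemh w s hs hsw) ho hc)
    refine ⟨p1, p2, ?_⟩
    rcases ho.lt_or_eq with h3 | h3
    · exact h3
    · exfalso
      by_cases hsF : s ∈ F
      · obtain ⟨g, hg1, hg2⟩ := hC.mark s hsF
        have q1 := hgval g s
        rw [hg1, (by linarith : 1 - d1 (s - v) - d2 (s - v) = 0), zero_mul, zero_add] at q1
        have q2 := hg2 v hv
        have q3 := hg2 u hum.2.2
        have q4 := hg2 w hwm.2.2
        have q6 : 0 ≤ d1 (s - v) * (1 - g u) := mul_nonneg p1.le (by linarith)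
        have q7 : 0 ≤ d2 (s - v) * (1 - g w) := mul_nonneg p2.le (by linarith)
        have r2 : d1 (s - v) * (1 - g u) = 0 := by linarith
        have r3 : d2 (s - v) * (1 - g w) = 0 := by linarith
        have t2 : g u = 1 := by
          rcases mul_eq_zero.1 r2 with h | h
          · linarith
          · linarith
        have t3 : g w = 1 := by
          rcases mul_eq_zero.1 r3 with h | h
          · linarith
          · linarith
        have q9 := hgval g 0
        rw [map_zero, t2, t3] at q9
        have q10 : 0 ≤ (d1 (0 - v) + d2 (0 - v) - 1) * (1 - g v) :=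
          mul_nonneg (by linarith) (by linarith)
        nlinarith
      · exact hI s hs hsF (Tri_sub (convex_convexHull ℝ _) (hmemh s v hv (Ne.symm h1))
          (hmemh s u hum.2.2 (Ne.symm hsu)) (hmemh s w hwm.2.2 (Ne.symm hsw))
          ⟨_, _, hn.1, hn.2, h3.symm.le, hcs s⟩)
  refine ⟨u, w, d1, d2, hC, hv, hvF, hv0, hum.2.2, hum.2.1, hum.1, hwm.2.2, hwm.2.1, hwm.1,
    hcoord, e1u, e2u, e1w, e2w, hnn', hone, hstrict, ?_, hst⟩
  intro he
  have h1 : d1 (0 - v) + d2 (0 - v) = 1 := by
    have a1 := hneg1 w
    have a2 := hneg2 w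
    rw [← he, e1u, e1w] at a1
    rw [← he, e2u, e2w] at a2
    linarith
  have hsub : rest S v ⊆ {u, w} := by
    intro s hs
    by_contra hcon
    rw [Finset.mem_insert, Finset.mem_singleton] at hcon
    push Not at hcon
    have b1 := mem_rest.1 hs
    have b2 := hstrict s b1.2.2 b1.2.1 b1.1 hcon.1 hcon.2
    have b3 := mem_rest.1 (hrs s hs)
    have b4 := hone (-s) b3.2.2 b3.2.1 b3.1
    rw [hneg1, hneg2] at b4
    linarith [b2.2.2]
  have h2 := Finset.card_le_card hsub
  have h3 := Finset.card_le_two (a := u) (b := w)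
  omega

end Pool.Agent.TH922.PL
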