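import Pool.Agent.TH922.PL.A3

set_option autoImplicit false

/-!
Reduction of symmetric polygons with marked boundary points (helper922).
-/

open MeasureTheory Set Filter
open scoped ENNReal Topology Matrix

namespace Pool.Agent.TH922.PL

open Pool.Agent.H131R5.LM Pool.Agent.H131R5.LC Pool.Agent.W679.A

variable {p : ℝ} {c : ℝ≥0∞}

lemma image_sub_zero (K : Set E2) : (fun x => x - 0) '' K = K := by simp

/-- **the inductive step**, with strict inequality -/
theorem step (hp : 0 < p) {F S : Finset E2} {v u w : E2} {c1 c2 : E2 →ₗ[ℝ] ℝ}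
    (h : Loc F S v u w c1 c2) (h0 : (0 : E2) ∉ S)
    (hi : (interior (convexHull ℝ (S : Set E2))).Nonempty)
    (IH : ∀ T : Finset E2, Cf F T → Less F T S →
      (interior (convexHull ℝ (T : Set E2))).Nonempty → LB p c (convexHull ℝ (T : Set E2))) :
    LB p c (convexHull ℝ (S : Set E2)) ∧ c < Mp p (convexHull ℝ (S : Set E2)) := by
  classical
  obtain ⟨t1, ht1, hear1, T1, hT1, hL1, hh1⟩ := one_side h
  obtain ⟨t2, ht2, hear2, T2, hT2, hL2, hh2⟩ := one_side h.swap
  have hrs := rest_symm h.cf.symm (v := v)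
  have hur : u ∈ (rest S v : Set E2) := mem_rest.2 ⟨h.uv', h.uv, h.uS⟩
  have hwr : w ∈ (rest S v : Set E2) := mem_rest.2 ⟨h.wv', h.wv, h.wS⟩
  have hu0 : u ≠ 0 := fun e => h0 (e ▸ h.uS)
  have huw : u ≠ w := by
    intro he
    have := h.c1u
    rw [he, h.c1w] at this
    exact zero_ne_one this
  have hEar : Ear v u w (rest S v : Set E2) := by
    have := hear1 0 le_rfl ht1.le
    rwa [zero_smul, add_zero] at this
  set L : E2 →ₗ[ℝ] ℝ := -(c1 + c2) with hL
  have hLv : ∀ x, L x = -(c1 x + c2 x) := by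
    intro x; rw [hL, LinearMap.neg_apply, LinearMap.add_apply]
  set l0 : ℝ := 1 - L v with hl0
  have hLu : L (u - v) = -1 := by rw [hLv, h.c1u, h.c2u]; norm_num
  have hLw : L (w - v) = -1 := by rw [hLv, h.c1w, h.c2w]; norm_num
  have hlt : l0 < 0 := by
    have a1 := h.strict (-u) (h.cf.symm u h.uS) (fun e => h.uv' (by rw [← e, neg_neg]))
      (fun e => h.uv (neg_injective e)) (fun e => by
        apply hu0
        have h3 : (2:ℝ) • u = 0 := by
          rw [two_smul]; nth_rewrite 1 [← e]; simp
        simpa using h3) (fun e => h.uw' (by rw [← e, neg_neg]))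
    have e1 : c1 (-u - v) = -c1 (u - v) - 2 * c1 v := by
      have : -u - v = -(u - v) - (2:ℝ) • v := by module
      rw [this, map_sub, map_neg, map_smul, smul_eq_mul]
    have e2 : c2 (-u - v) = -c2 (u - v) - 2 * c2 v := by
      have : -u - v = -(u - v) - (2:ℝ) • v := by module
      rw [this, map_sub, map_neg, map_smul, smul_eq_mul]
    have a2 := a1.2.2
    rw [e1, e2, h.c1u, h.c2u] at a2
    rw [hl0, hLv]
    linarith
  have hθ : w - u ≠ 0 := sub_ne_zero.2 (Ne.symm huw)
  have hLθ : L (w - u) = 0 := by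
    have : w - u = (w - v) - (u - v) := by abel
    rw [this, map_sub, hLu, hLw, sub_self]
  have hS := ins_rest h.cf.symm h.vS
  have e1 := osh_ear hrs hur hwr hEar L l0 hLu hLw (by rw [hl0]; ring) hlt.le t1
    (hear1 t1 ht1.le le_rfl)
  have hflip : v + t2 • (u - w) = v + (-t2) • (w - u) := by module
  have e2 := osh_ear hrs hur hwr hEar L l0 hLu hLw (by rw [hl0]; ring) hlt.le (-t2) (by
    rw [← hflip]
    exact Ear.swap' (hear2 t2 ht2.le le_rfl))
  rw [hh1, ← hS] at e1
  rw [← hflip, hh2, ← hS] at e2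
  have hconv : Convex ℝ (convexHull ℝ (S : Set E2)) := convex_convexHull ℝ _
  have hcomp : IsCompact (convexHull ℝ (S : Set E2)) := S.finite_toSet.isCompact_convexHull ℝ
  have hβ := ob_cont L l0
  have hinv := ob_inv L l0 hLθ
  have i1 := shear_int hi hβ hinv t1
  have i2 := shear_int hi hβ hinv (-t2)
  rw [e1] at i1
  rw [e2] at i2
  have l1 := IH T1 hT1 hL1 i1
  have l2 := IH T2 hT2 hL2 i2
  have hna : NA (convexHull ℝ (S : Set E2)) (ob L l0) := by
    refine ⟨v, subset_convexHull ℝ _ h.vS, 0, zero_mem_hull h.cf.symm ⟨v, h.vS⟩, 1 / 2,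
      by norm_num, by norm_num, ?_⟩
    have hv1 : L v = 1 - l0 := by rw [hl0]; ring
    unfold ob
    rw [map_add, map_smul, smul_zero, map_zero, smul_eq_mul, hv1]
    have a1 : max 0 (1 - l0 + l0) = (1:ℝ) := by
      rw [sub_add_cancel]; exact max_eq_right zero_le_one
    have a2 : max 0 (-(1 - l0) + l0) = (0:ℝ) := max_eq_left (by linarith)
    have a3 : max 0 (-((1 - 1 / 2) * (1 - l0) + 0) + l0) = (0:ℝ) := max_eq_left (by linarith)
    rw [a1, a2, a3]
    intro hcon
    rcases le_total 0 ((1 - 1 / 2) * (1 - l0) + 0 + l0) with h1 | h1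
    · rw [max_eq_right h1] at hcon
      simp only [neg_zero, zero_add, sub_self, mul_zero, add_zero, sub_zero] at hcon
      linarith
    · rw [max_eq_left h1] at hcon
      norm_num at hcon
  refine ⟨LB_core hp hconv hcomp hi hβ hinv ht2 ht1 (by rw [e1]; exact l1) (by rw [e2]; exact l2),
    ?_⟩
  have h3 := LB_strict hp hconv hcomp hi hθ hβ hinv ht2 ht1 hna (by rw [e1]; exact l1)
    (by rw [e2]; exact l2) 0
  rwa [image_sub_zero] at h3

/-- removing a redundant point -/
lemma reducible {F S : Finset E2} (hC : Cf F S) (h3 : 3 ≤ S.card) {s : E2} (hs : s ∈ S)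
    (hsF : s ∉ F) (hsh : s ∈ convexHull ℝ ((S.erase s : Finset E2) : Set E2)) :
    ∃ T : Finset E2, Cf F T ∧ (T \ F).card < (S \ F).card ∧ T ⊆ S ∧
      convexHull ℝ (S : Set E2) = convexHull ℝ (T : Set E2) := by
  classical
  by_cases h0 : s = 0
  · subst h0
    refine ⟨S.erase 0, ⟨?_, hC.symF, ?_, ?_⟩, ?_, Finset.erase_subset _ _, ?_⟩
    · intro x hx
      rw [Finset.mem_erase] at hx ⊢
      exact ⟨neg_ne_zero.2 hx.1, hC.symm x hx.2⟩
    · intro f hf
      rw [Finset.mem_erase]
      exact ⟨fun e => hsF (e ▸ hf), hC.sub hf⟩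
    · intro f hf
      obtain ⟨g, g1, g2⟩ := hC.mark f hf
      exact ⟨g, g1, fun x hx => g2 x (Finset.mem_of_mem_erase hx)⟩
    · have h1 : (S.erase 0) \ F ⊆ (S \ F).erase 0 := by
        intro x hx
        rw [Finset.mem_sdiff, Finset.mem_erase] at hx
        rw [Finset.mem_erase, Finset.mem_sdiff]
        tauto
      have h2 := Finset.card_le_card h1
      have h4 := Finset.card_erase_lt_of_mem (Finset.mem_sdiff.2 ⟨hs, hsF⟩)
      omega
    · apply hull_absorb (by rw [Finset.coe_subset]; exact Finset.erase_subset _ _)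
      intro x hx
      by_cases hx0 : x = 0
      · rw [hx0]; exact hsh
      · exact subset_convexHull ℝ _ (Finset.mem_coe.2 (Finset.mem_erase.2 ⟨hx0, hx⟩))
  · have hsF' : -s ∉ F := fun hh => hsF (by
      have := hC.symF _ hh
      rwa [neg_neg] at this)
    refine ⟨rest S s, ⟨rest_symm hC.symm, hC.symF, ?_, ?_⟩, ?_, ?_, ?_⟩
    · intro f hf
      exact mem_rest.2 ⟨fun e => hsF' (e ▸ hf), fun e => hsF (e ▸ hf), hC.sub hf⟩
    · intro f hf
      obtain ⟨g, g1, g2⟩ := hC.mark f hf
      exact ⟨g, g1, fun x hx => g2 x (mem_rest.1 hx).2.2⟩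
    · have h1 : (rest S s) \ F ⊆ (S \ F).erase s := by
        intro x hx
        rw [Finset.mem_sdiff, mem_rest] at hx
        rw [Finset.mem_erase, Finset.mem_sdiff]
        tauto
      have h2 := Finset.card_le_card h1
      have h4 := Finset.card_erase_lt_of_mem (Finset.mem_sdiff.2 ⟨hs, hsF⟩)
      omega
    · intro x hx
      exact (mem_rest.1 hx).2.2
    · apply remove_pair (T := (rest S s : Set E2)) (rest_symm hC.symm)
      · rw [Finset.coe_nonempty, ← Finset.card_pos]
        unfold rest
        have h1 := Finset.pred_card_le_card_erase (s := S.erase s) (a := -s)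
        have h2 := Finset.pred_card_le_card_erase (s := S) (a := s)
        omega
      · exact (ins_rest hC.symm hs).le
      · intro x hx
        exact (mem_rest.1 hx).2.2
      · refine convexHull_mono ?_ hsh
        intro x hx
        rw [Finset.mem_coe, Finset.mem_erase] at hx
        by_cases hx' : x = -s
        · exact Or.inl hx'
        · exact Or.inr (mem_rest.2 ⟨hx', hx.1, hx.2⟩)

/-- if no unmarked point is movable then there are few of them -/
lemma few_stuck {F S : Finset E2} (hC : Cf F S) (hI : Irr F S)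
    (hst : ∀ v ∈ S, v ∉ F → Stuck F S v) : (S \ F).card ≤ 2 * F.card := by
  classical
  set φ : E2 → E2 := fun v => if h : Stuck F S v then h.choose else 0 with hφ
  have hφ1 : ∀ v ∈ S \ F, φ v ∈ F ∧ ∃ s ∈ S, ∃ γ : ℝ, 1 < γ ∧ s = v + γ • (φ v - v) := by
    intro v hv
    rw [Finset.mem_sdiff] at hv
    have h := hst v hv.1 hv.2
    have e : φ v = h.choose := by simp only [hφ]; rw [dif_pos h]
    rw [e]
    exact h.choose_spec
  refine Finset.card_le_mul_card_image_of_maps_to (f := φ) (fun v hv => (hφ1 v hv).1) 2 ?_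
  intro b hb
  obtain ⟨g, g1, g2⟩ := hC.mark b hb
  by_contra hcon
  push Not at hcon
  rw [Finset.two_lt_card] at hcon
  obtain ⟨x, hx, y, hy, z, hz, hxy, hxz, hyz⟩ := hcon
  have hV : ∀ v ∈ (S \ F).filter (fun a => φ a = b), v ∈ S ∧ v ∉ F ∧ g v = 1 := by
    intro v hv
    rw [Finset.mem_filter] at hv
    obtain ⟨hv1, hv2⟩ := hv
    obtain ⟨_, s, hs, γ, hγ, he⟩ := hφ1 v hv1
    rw [Finset.mem_sdiff] at hv1
    refine ⟨hv1.1, hv1.2, ?_⟩
    have a1 := g2 s hs
    rw [he, hv2, map_add, map_smul, map_sub, g1, smul_eq_mul] at a1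
    have a2 := g2 v hv1.1
    nlinarith
  obtain ⟨xS, xF, xg⟩ := hV x hx
  obtain ⟨yS, yF, yg⟩ := hV y hy
  obtain ⟨zS, zF, zg⟩ := hV z hz
  -- a transversal functional
  set g0 := g (Pi.single 0 1) with hg0
  set g1' := g (Pi.single 1 1) with hg1'
  have hgv : ∀ a : E2, g a = g0 * a 0 + g1' * a 1 := by
    intro a
    have e : a = a 0 • (Pi.single 0 1 : E2) + a 1 • (Pi.single 1 1 : E2) := by
      ext i; fin_cases i <;> simp
    conv_lhs => rw [e]
    rw [map_add, map_smul, map_smul, smul_eq_mul, smul_eq_mul]; ring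
  have hD : 0 < g0 ^ 2 + g1' ^ 2 := by
    have h1 := hgv b
    rw [g1] at h1
    by_contra hc
    push Not at hc
    have h2 : g0 = 0 := by nlinarith [sq_nonneg g0, sq_nonneg g1']
    have h3 : g1' = 0 := by nlinarith [sq_nonneg g0, sq_nonneg g1']
    rw [h2, h3] at h1
    norm_num at h1
  set hh : E2 → ℝ := fun a => -g1' * a 0 + g0 * a 1 with hhh
  have key : ∀ x y z : E2, x ∈ S → y ∈ S → z ∈ S → y ∉ F → g x = 1 → g y = 1 → g z = 1 →
      x ≠ y → y ≠ z → hh x ≤ hh y → hh y ≤ hh z → False := by
    intro x y z xS yS zS yF xg yg zg hxy hyz h1 h2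
    have inj : ∀ a b : E2, g a = g b → hh a = hh b → a = b := by
      intro a b e1 e2
      rw [hgv, hgv] at e1
      simp only [hhh] at e2
      have f0 : (g0 ^ 2 + g1' ^ 2) * (a 0 - b 0) = 0 := by linear_combination g0 * e1 - g1' * e2
      have f1 : (g0 ^ 2 + g1' ^ 2) * (a 1 - b 1) = 0 := by linear_combination g1' * e1 + g0 * e2
      have k0 : a 0 = b 0 := by
        rcases mul_eq_zero.1 f0 with h | h
        · exact absurd h hD.ne'
        · linarith
      have k1 : a 1 = b 1 := by
        rcases mul_eq_zero.1 f1 with h | h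
        · exact absurd h hD.ne'
        · linarith
      ext i
      fin_cases i
      · exact k0
      · exact k1
    have h3 : hh x < hh y := lt_of_le_of_ne h1 fun e => hxy (inj x y (by rw [xg, yg]) e)
    have h4 : 0 < hh z - hh x := by linarith
    set l := (hh y - hh x) / (hh z - hh x) with hl
    have hl0 : 0 ≤ l := div_nonneg (by linarith) h4.le
    have hl1 : l ≤ 1 := by rw [hl, div_le_one h4]; linarith
    have hy' : y = (1 - l) • x + l • z := by
      apply inj
      · rw [map_add, map_smul, map_smul, xg, yg, zg, smul_eq_mul, smul_eq_mul]; ring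
      · have : hh ((1 - l) • x + l • z) = hh x + l * (hh z - hh x) := by
          simp only [hhh, Pi.add_apply, Pi.smul_apply, smul_eq_mul]; ring
        rw [this, hl, div_mul_cancel₀ _ h4.ne']; ring
    apply hI y yS yF
    have hx' : x ∈ convexHull ℝ ((S.erase y : Finset E2) : Set E2) :=
      subset_convexHull ℝ _ (Finset.mem_coe.2 (Finset.mem_erase.2 ⟨hxy, xS⟩))
    have hz' : z ∈ convexHull ℝ ((S.erase y : Finset E2) : Set E2) :=
      subset_convexHull ℝ _ (Finset.mem_coe.2 (Finset.mem_erase.2 ⟨hyz.symm, zS⟩))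
    rw [hy']
    have := (convex_convexHull ℝ ((S.erase y : Finset E2) : Set E2)) hx' hz'
      (by linarith : 0 ≤ 1 - l) hl0 (by ring)
    rw [← hy'] at this ⊢
    exact this
  rcases le_total (hh x) (hh y) with a | a <;> rcases le_total (hh y) (hh z) with b | b <;>
    rcases le_total (hh x) (hh z) with c | c
  · exact key x y z xS yS zS yF xg yg zg hxy hyz a b
  · exact key x y z xS yS zS yF xg yg zg hxy hyz a b
  · exact key x z y xS zS yS zF xg zg yg hxz hyz.symm c b
  · exact key z x y zS xS yS xF zg xg yg hxz.symm hxy c a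
  · exact key y x z yS xS zS xF yg xg zg hxy.symm hxz a c
  · exact key y z x yS zS xS zF yg zg xg hyz hxz.symm b c
  · exact key z y x zS yS xS yF zg yg xg hyz.symm hxy.symm b a
  · exact key z y x zS yS xS yF zg yg xg hyz.symm hxy.symm b a

/-- **reduction to few points** -/
theorem reduce (hp : 0 < p) {F : Finset E2}
    (hterm : ∀ T : Finset E2, Cf F T → T.card ≤ max 4 (3 * F.card) →
      (interior (convexHull ℝ (T : Set E2))).Nonempty → LB p c (convexHull ℝ (T : Set E2)))
    (S : Finset E2) (hC : Cf F S) (hi : (interior (convexHull ℝ (S : Set E2))).Nonempty) :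
    LB p c (convexHull ℝ (S : Set E2)) := by
  classical
  suffices H : ∀ k j : ℕ, ∀ S : Finset E2, (S \ F).card = k → (ns F S).card = j → Cf F S →
      (interior (convexHull ℝ (S : Set E2))).Nonempty → LB p c (convexHull ℝ (S : Set E2)) from
    H _ _ S rfl rfl hC hi
  intro k
  induction k using Nat.strong_induction_on with
  | _ k ihk =>
    intro j
    induction j using Nat.strong_induction_on with
    | _ j ihj =>
      intro S hk hj hC hi
      by_cases hcard : S.card ≤ max 4 (3 * F.card)
      · exact hterm S hC hcard hi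
      push Not at hcard
      have h5 : 5 ≤ S.card := by
        have := le_max_left 4 (3 * F.card)
        omega
      by_cases hI : Irr F S
      · have hex : ∃ v ∈ S, v ∉ F ∧ ¬ Stuck F S v := by
          by_contra hcon
          push Not at hcon
          have h1 := few_stuck hC hI hcon
          have h2 := Finset.card_sdiff_add_card_eq_card hC.sub
          have h3 := le_max_right 4 (3 * F.card)
          omega
        obtain ⟨v, hv, hvF, hst⟩ := hex
        obtain ⟨u, w, c1, c2, hloc⟩ := exists_loc hC hI h5 hi hv hvF hst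
        refine (step hp hloc (hC.zero_notMem hI (by omega)) hi ?_).1
        intro T hT hL hiT
        rcases hL with h | h
        · exact ihk _ (by omega) _ T rfl rfl hT hiT
        · rcases h.1.lt_or_eq with h1 | h1
          · exact ihk _ (by omega) _ T rfl rfl hT hiT
          · exact ihj _ (by omega) T (by omega) rfl hT hiT
      · unfold Irr at hI
        push Not at hI
        obtain ⟨s, hs, hsF, hsh⟩ := hI
        obtain ⟨T, hT, hlt, _, he⟩ := reducible hC (by omega) hs hsF hsh
        rw [he] at hi ⊢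
        exact ihk _ (by omega) _ T rfl rfl hT hi

end Pool.Agent.TH922.PL
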