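import Pool.Agent.TH922.PL.A4

set_option autoImplicit false

/-!
The symmetric `L^p`-Mahler inequality in the plane (helper922).
-/

open MeasureTheory Set Filter
open scoped ENNReal Topology Matrix Pointwise

namespace Pool.Agent.TH922.PL

open Pool.Agent.H131R5.LM Pool.Agent.H131R5.LC Pool.Agent.W679.A

variable {n : ℕ} {p : ℝ} {c : ℝ≥0∞}

lemma Fp_even {K : Set (Fin n → ℝ)} (hs : ∀ x ∈ K, -x ∈ K) (y : Fin n → ℝ) :
    Fp p K (-y) = Fp p K y := by
  have hK : (fun x : Fin n → ℝ => -x) ⁻¹' K = K := by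
    ext x
    constructor
    · intro hx; have := hs _ hx; rwa [neg_neg] at this
    · intro hx; exact hs x hx
  have h1 : ∫ x in K, Real.exp (p * (x ⬝ᵥ -y)) = ∫ x in K, Real.exp (p * (x ⬝ᵥ y)) := by
    have hmp : MeasurePreserving (fun x : Fin n → ℝ => -x) volume volume :=
      Measure.measurePreserving_neg volume
    have hemb : MeasurableEmbedding (fun x : Fin n → ℝ => -x) :=
      (Homeomorph.neg (Fin n → ℝ)).measurableEmbedding
    have h2 := hmp.setIntegral_preimage_emb hemb (fun x => Real.exp (p * (x ⬝ᵥ y))) K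
    rw [hK] at h2
    rw [← h2]
    refine integral_congr_ae (Eventually.of_forall fun x => ?_)
    simp only [dotProduct_neg, neg_dotProduct]
  unfold Fp
  rw [h1]

/-- for symmetric bodies the centred position is the best one -/
theorem LB_sym (hp : 0 < p) {K : Set (Fin n → ℝ)} (hc : IsCompact K)
    (hi : (interior K).Nonempty) (hs : ∀ x ∈ K, -x ∈ K) : LB p (Mp p K) K := by
  intro z
  rw [Mp_sub hp hc hi]
  unfold Mp
  refine mul_le_mul' le_rfl ?_
  have hF : ∀ y, 0 ≤ Fp p K y := fun y =>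
    Real.rpow_nonneg (div_nonneg (int_pos' hc hi p y).le ENNReal.toReal_nonneg) _
  have hmeas : Measurable (Fp p K) := (meas_Fp hp hc hi)
  have hE : Measurable fun y : Fin n → ℝ => Real.exp (z ⬝ᵥ y) * Fp p K y := by
    have h2 : Continuous fun y : Fin n → ℝ => z ⬝ᵥ y := by unfold dotProduct; fun_prop
    exact (Real.continuous_exp.comp h2).measurable.mul hmeas
  have hflip : ∫⁻ y : Fin n → ℝ, ENNReal.ofReal (Real.exp (z ⬝ᵥ y) * Fp p K y) =
      ∫⁻ y : Fin n → ℝ, ENNReal.ofReal (Real.exp (-(z ⬝ᵥ y)) * Fp p K y) := by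
    have hmp : MeasurePreserving (fun x : Fin n → ℝ => -x) volume volume :=
      Measure.measurePreserving_neg volume
    rw [← hmp.lintegral_comp hE.ennreal_ofReal]
    refine lintegral_congr fun y => ?_
    rw [Fp_even hs, dotProduct_neg]
  have h2 : 2 * ∫⁻ y : Fin n → ℝ, ENNReal.ofReal (Fp p K y) ≤
      2 * ∫⁻ y : Fin n → ℝ, ENNReal.ofReal (Real.exp (z ⬝ᵥ y) * Fp p K y) := by
    have e : (2:ℝ≥0∞) * ∫⁻ y : Fin n → ℝ, ENNReal.ofReal (Real.exp (z ⬝ᵥ y) * Fp p K y) =
        (∫⁻ y : Fin n → ℝ, ENNReal.ofReal (Real.exp (z ⬝ᵥ y) * Fp p K y)) +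
        ∫⁻ y : Fin n → ℝ, ENNReal.ofReal (Real.exp (-(z ⬝ᵥ y)) * Fp p K y) := by
      rw [← hflip, two_mul]
    rw [e, ← lintegral_add_left hE.ennreal_ofReal, ← lintegral_const_mul' _ _ (by simp)]
    refine lintegral_mono fun y => ?_
    have h3 : 0 ≤ Real.exp (z ⬝ᵥ y) * Fp p K y := mul_nonneg (Real.exp_pos _).le (hF y)
    have h4 : 0 ≤ Real.exp (-(z ⬝ᵥ y)) * Fp p K y := mul_nonneg (Real.exp_pos _).le (hF y)
    rw [← ENNReal.ofReal_add h3 h4]
    have h5 : (2:ℝ≥0∞) = ENNReal.ofReal 2 := by simp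
    rw [h5, ← ENNReal.ofReal_mul zero_le_two]
    apply ENNReal.ofReal_le_ofReal
    have h6 : 2 ≤ Real.exp (z ⬝ᵥ y) + Real.exp (-(z ⬝ᵥ y)) := by
      have := exp_sum (z ⬝ᵥ y)
      nlinarith [sq_nonneg (z ⬝ᵥ y)]
    nlinarith [hF y]
  exact (ENNReal.mul_le_mul_iff_right (a := 2) (by norm_num) (by simp)).1 h2

/-- the square -/
def Sq : Set E2 := {x | ∀ i, |x i| ≤ 1}

lemma Sq_eq : Sq = Icc (-1) 1 := by
  ext x
  simp only [Sq, mem_ofPred_eq, mem_Icc, Pi.le_def, abs_le, Pi.neg_apply, Pi.one_apply]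
  constructor
  · intro h; exact ⟨fun i => (h i).1, fun i => (h i).2⟩
  · rintro ⟨h1, h2⟩ i; exact ⟨h1 i, h2 i⟩

lemma Sq_comp : IsCompact Sq := by rw [Sq_eq]; exact isCompact_Icc

lemma Sq_conv : Convex ℝ Sq := by rw [Sq_eq]; exact convex_Icc _ _

lemma Sq_symm : ∀ x ∈ Sq, -x ∈ Sq := by
  intro x hx i
  rw [Pi.neg_apply, abs_neg]; exact hx i

lemma Sq_int : (interior Sq).Nonempty := by
  refine ⟨0, mem_interior.2 ⟨Metric.ball 0 1, ?_, Metric.isOpen_ball, Metric.mem_ball_self one_pos⟩⟩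
  intro x hx i
  rw [Metric.mem_ball, dist_zero_right] at hx
  have := norm_le_pi_norm x i
  rw [Real.norm_eq_abs] at this
  linarith

/-- at most four points: a parallelogram -/
theorem base {S : Finset E2} (hs : ∀ s ∈ S, -s ∈ S) (h4 : S.card ≤ 4)
    (hi : (interior (convexHull ℝ (S : Set E2))).Nonempty) :
    ∃ A : E2 ≃ₗ[ℝ] E2, convexHull ℝ (S : Set E2) = A '' Sq := by
  classical
  have hlin : ∀ g : E2 →ₗ[ℝ] ℝ, (∀ s ∈ S, g s = 0) → ∀ x, g x = 0 := by
    intro g hg
    refine lin_zero hi g fun y hy => ?_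
    have hcv : Convex ℝ {y | g y = 0} := by
      intro a ha b hb s t _ _ _
      simp only [mem_ofPred_eq] at ha hb ⊢
      rw [map_add, map_smul, map_smul, ha, hb]; simp
    exact convexHull_min (fun s hs => hg s hs) hcv hy
  obtain ⟨a, ha, ha0⟩ : ∃ a ∈ S, a ≠ 0 := by
    by_contra hcon
    push Not at hcon
    have := hlin (LinearMap.proj 0) (fun s hs => by rw [hcon s hs]; simp) (fun _ => 1)
    simp at this
  obtain ⟨b, hb, hab⟩ : ∃ b ∈ S, a 0 * b 1 - a 1 * b 0 ≠ 0 := by
    by_contra hcon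
    push Not at hcon
    have h1 := hlin (a 0 • LinearMap.proj 1 - a 1 • LinearMap.proj 0) (fun s hs => by
      have := hcon s hs
      simp only [LinearMap.sub_apply, LinearMap.smul_apply, LinearMap.proj_apply, smul_eq_mul]
      exact this)
    have h2 := h1 ![0, 1]
    have h3 := h1 ![1, 0]
    simp at h2 h3
    apply ha0
    ext i
    fin_cases i
    · simpa using h2
    · simpa using h3
  set D := a 0 * b 1 - a 1 * b 0 with hD
  have hna : a ≠ -a := by
    intro e
    apply ha0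
    have h3 : (2:ℝ) • a = 0 := by
      rw [two_smul]; nth_rewrite 2 [e]; simp
    simpa using h3
  have hb0 : b ≠ 0 := by
    rintro rfl
    apply hab
    rw [hD]; simp
  have hnb : b ≠ -b := by
    intro e
    apply hb0
    have h3 : (2:ℝ) • b = 0 := by
      rw [two_smul]; nth_rewrite 2 [e]; simp
    simpa using h3
  have hab1 : a ≠ b := by
    rintro rfl; apply hab; rw [hD]; ring
  have hab2 : a ≠ -b := by
    intro e; apply hab; rw [hD, e]; simp only [Pi.neg_apply]; ring
  have hab3 : -a ≠ b := fun e => hab2 (by rw [← e, neg_neg])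
  have hab4 : -a ≠ -b := fun e => hab1 (neg_injective e)
  set Q : Finset E2 := {a, -a, b, -b} with hQ
  have hQc : Q.card = 4 := by
    rw [hQ, Finset.card_insert_of_notMem, Finset.card_insert_of_notMem,
      Finset.card_insert_of_notMem, Finset.card_singleton]
    · simpa using hnb
    · simp only [Finset.mem_insert, Finset.mem_singleton]; tauto
    · simp only [Finset.mem_insert, Finset.mem_singleton]; tauto
  have hQS : Q = S := by
    apply Finset.eq_of_subset_of_card_le
    · intro x hx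
      rw [hQ] at hx
      simp only [Finset.mem_insert, Finset.mem_singleton] at hx
      rcases hx with rfl | rfl | rfl | rfl
      · exact ha
      · exact hs _ ha
      · exact hb
      · exact hs _ hb
    · omega
  set u : E2 := (1 / 2 : ℝ) • (a + b) with hu
  set w : E2 := (1 / 2 : ℝ) • (a - b) with hw
  set A0 : E2 →ₗ[ℝ] E2 := (LinearMap.proj 0 : E2 →ₗ[ℝ] ℝ).smulRight u +
    (LinearMap.proj 1 : E2 →ₗ[ℝ] ℝ).smulRight w with hA0
  have hA0v : ∀ x, A0 x = x 0 • u + x 1 • w := by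
    intro x
    rw [hA0]
    simp
  have hinj : Function.Injective A0 := by
    rw [← LinearMap.ker_eq_bot, LinearMap.ker_eq_bot']
    intro x hx
    rw [hA0v] at hx
    have f0 := congrFun hx 0
    have f1 := congrFun hx 1
    simp only [hu, hw, Pi.add_apply, Pi.smul_apply, Pi.sub_apply, smul_eq_mul,
      Pi.zero_apply] at f0 f1
    have g0 : D * (x 0 + x 1) = 0 := by
      rw [hD]; linear_combination 2 * b 1 * f0 - 2 * b 0 * f1
    have g1 : D * (x 0 - x 1) = 0 := by
      rw [hD]; linear_combination (-2) * a 1 * f0 + 2 * a 0 * f1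
    have k0 : x 0 + x 1 = 0 := by
      rcases mul_eq_zero.1 g0 with h | h
      · exact absurd h hab
      · exact h
    have k1 : x 0 - x 1 = 0 := by
      rcases mul_eq_zero.1 g1 with h | h
      · exact absurd h hab
      · exact h
    ext i
    fin_cases i
    · show x 0 = 0
      linarith
    · show x 1 = 0
      linarith
  refine ⟨LinearEquiv.ofInjectiveEndo A0 hinj, ?_⟩
  have hAv : ∀ x, (LinearEquiv.ofInjectiveEndo A0 hinj) x = x 0 • u + x 1 • w := by
    intro x
    rw [← hA0v]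
    rfl
  rw [← hQS]
  apply Subset.antisymm
  · apply convexHull_min
    · intro x hx
      rw [Finset.mem_coe, hQ] at hx
      simp only [Finset.mem_insert, Finset.mem_singleton] at hx
      rcases hx with rfl | rfl | rfl | rfl
      · refine ⟨![1, 1], fun i => by fin_cases i <;> simp, ?_⟩
        rw [hAv]; simp only [hu, hw]; simp; module
      · refine ⟨![-1, -1], fun i => by fin_cases i <;> simp, ?_⟩
        rw [hAv]; simp only [hu, hw]; simp; module
      · refine ⟨![1, -1], fun i => by fin_cases i <;> simp, ?_⟩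
        rw [hAv]; simp only [hu, hw]; simp; module
      · refine ⟨![-1, 1], fun i => by fin_cases i <;> simp, ?_⟩
        rw [hAv]; simp only [hu, hw]; simp; module
    · exact Sq_conv.linear_image A0
  · rintro _ ⟨x, hx, rfl⟩
    rw [hAv]
    have h0 := abs_le.1 (hx 0)
    have h1 := abs_le.1 (hx 1)
    have m1 : a ∈ convexHull ℝ (Q : Set E2) := subset_convexHull ℝ _ (by simp [hQ])
    have m2 : -a ∈ convexHull ℝ (Q : Set E2) := subset_convexHull ℝ _ (by simp [hQ])
    have m3 : b ∈ convexHull ℝ (Q : Set E2) := subset_convexHull ℝ _ (by simp [hQ])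
    have m4 : -b ∈ convexHull ℝ (Q : Set E2) := subset_convexHull ℝ _ (by simp [hQ])
    have hcv := convex_convexHull ℝ (Q : Set E2)
    have e : x 0 • u + x 1 • w =
        ((1 + x 0) / 2) • (((1 + x 1) / 2) • a + ((1 - x 1) / 2) • b) +
        ((1 - x 0) / 2) • (((1 + x 1) / 2) • (-b) + ((1 - x 1) / 2) • (-a)) := by
      simp only [hu, hw]
      module
    rw [e]
    refine hcv (hcv m1 m3 (by linarith) (by linarith) (by ring))
      (hcv m4 m2 (by linarith) (by linarith) (by ring)) (by linarith) (by linarith) (by ring)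

/-- small configurations -/
lemma base_LB (hp : 0 < p) {S : Finset E2} (hs : ∀ s ∈ S, -s ∈ S) (h4 : S.card ≤ 4)
    (hi : (interior (convexHull ℝ (S : Set E2))).Nonempty) :
    LB p (Mp p Sq) (convexHull ℝ (S : Set E2)) := by
  obtain ⟨A, hA⟩ := base hs h4 hi
  rw [hA]
  exact LB_image hp A Sq_comp Sq_int (LB_sym hp Sq_comp Sq_int Sq_symm)

lemma cf_empty {S : Finset E2} (hs : ∀ s ∈ S, -s ∈ S) : Cf ∅ S :=
  ⟨hs, by simp, Finset.empty_subset _, by simp⟩

/-- **symmetric polygons** -/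
theorem poly_LB (hp : 0 < p) {S : Finset E2} (hs : ∀ s ∈ S, -s ∈ S)
    (hi : (interior (convexHull ℝ (S : Set E2))).Nonempty) :
    LB p (Mp p Sq) (convexHull ℝ (S : Set E2)) := by
  refine reduce hp (F := ∅) ?_ S (cf_empty hs) hi
  intro T hT h4 hiT
  exact base_LB hp hT.symm (by simpa using h4) hiT

/-- symmetrised finite sets -/
lemma sym_finset (S : Finset E2) : ∃ T : Finset E2, (∀ s ∈ T, -s ∈ T) ∧ S ⊆ T ∧
    ∀ t ∈ T, t ∈ S ∨ -t ∈ S := by
  classical
  refine ⟨S ∪ S.image (fun x => -x), ?_, Finset.subset_union_left, ?_⟩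
  · intro s hs
    rw [Finset.mem_union, Finset.mem_image] at hs ⊢
    rcases hs with h | ⟨x, hx, rfl⟩
    · exact Or.inr ⟨s, h, rfl⟩
    · left; rw [neg_neg]; exact hx
  · intro t ht
    rw [Finset.mem_union, Finset.mem_image] at ht
    rcases ht with h | ⟨x, hx, rfl⟩
    · exact Or.inl h
    · right; rw [neg_neg]; exact hx

/-- **the symmetric `L^p`-Mahler inequality in the plane** -/
theorem plane_LB (hp : 0 < p) {K : Set E2} (hc : IsCompact K) (hconv : Convex ℝ K)
    (hi : (interior K).Nonempty) (hs : ∀ x ∈ K, -x ∈ K) : LB p (Mp p Sq) K := by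
  classical
  refine LB_approx hp hc hi fun ε hε => ?_
  obtain ⟨δ, hδ, hv⟩ := vol_thick hc hi hε
  obtain ⟨S, -, hKS, hSK⟩ := poly_approx (⊤ : Submodule ℝ E2) hc hconv (fun _ _ => trivial) hδ
  obtain ⟨T, hT, hST, hTS⟩ := sym_finset S
  have hcts : ∀ x ∈ Metric.cthickening δ K, -x ∈ Metric.cthickening δ K := by
    intro x hx
    rw [hc.cthickening_eq_biUnion_closedBall hδ.le, mem_iUnion₂] at hx ⊢
    obtain ⟨z, hz, hxz⟩ := hx
    refine ⟨-z, hs z hz, ?_⟩
    rw [Metric.mem_closedBall] at hxz ⊢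
    rwa [dist_neg_neg]
  have hTK : convexHull ℝ (T : Set E2) ⊆ Metric.cthickening δ K := by
    apply convexHull_min _ (hconv.cthickening δ)
    intro t ht
    rcases hTS t ht with h | h
    · exact hSK h
    · have := hcts _ (hSK h)
      rwa [neg_neg] at this
  have hKT : K ⊆ convexHull ℝ (T : Set E2) := hKS.trans (convexHull_mono hST)
  refine ⟨convexHull ℝ (T : Set E2), T.finite_toSet.isCompact_convexHull ℝ, hKT, ?_,
    poly_LB hp hT (hi.mono (interior_mono hKT))⟩
  refine le_trans ?_ hv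
  exact ENNReal.toReal_mono (hc.cthickening.measure_lt_top.ne) (measure_mono hTK)

theorem plane_le (hp : 0 < p) {K : Set E2} (hc : IsCompact K) (hconv : Convex ℝ K)
    (hi : (interior K).Nonempty) (hs : ∀ x ∈ K, -x ∈ K) : Mp p Sq ≤ Mp p K := by
  have := plane_LB hp hc hconv hi hs 0
  rwa [image_sub_zero] at this

/-- strict inequality for polygons with marked points, if they have at least five points -/
theorem strict_irr (hp : 0 < p) {S : Finset E2} (hs : ∀ s ∈ S, -s ∈ S) (hI : Irr ∅ S)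
    (h5 : 5 ≤ S.card) (hi : (interior (convexHull ℝ (S : Set E2))).Nonempty) :
    Mp p Sq < Mp p (convexHull ℝ (S : Set E2)) := by
  have hC := cf_empty hs
  obtain ⟨v, hv⟩ : S.Nonempty := Finset.card_pos.1 (by omega)
  have hst : ¬ Stuck ∅ S v := by
    rintro ⟨f, hf, _⟩
    simp at hf
  obtain ⟨u, w, c1, c2, hloc⟩ := exists_loc hC hI h5 hi hv (by simp) hst
  exact (step hp hloc (hC.zero_notMem hI (by omega)) hi
    (fun T hT _ hiT => poly_LB hp hT.symm hiT)).2

/-- minimal vertex sets -/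
lemma exists_irr (S : Finset E2) (hs : ∀ s ∈ S, -s ∈ S) : ∃ T : Finset E2, (∀ s ∈ T, -s ∈ T) ∧
    convexHull ℝ (S : Set E2) = convexHull ℝ (T : Set E2) ∧ (T.card ≤ 4 ∨ Irr ∅ T) := by
  classical
  induction hk : S.card using Nat.strong_induction_on generalizing S with
  | _ k ih =>
    by_cases h4 : S.card ≤ 4
    · exact ⟨S, hs, rfl, Or.inl h4⟩
    by_cases hI : Irr ∅ S
    · exact ⟨S, hs, rfl, Or.inr hI⟩
    unfold Irr at hI
    push Not at hI
    obtain ⟨s, hsS, hsF, hsh⟩ := hI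
    obtain ⟨T, hT, hlt, _, he⟩ := reducible (cf_empty hs) (by omega) hsS hsF hsh
    rw [Finset.sdiff_empty, Finset.sdiff_empty] at hlt
    obtain ⟨U, hU1, hU2, hU3⟩ := ih T.card (by omega) T hT.symm rfl
    exact ⟨U, hU1, he.trans hU2, hU3⟩

/-- **equality for symmetric polygons** -/
theorem poly_strict (hp : 0 < p) {S : Finset E2} (hs : ∀ s ∈ S, -s ∈ S)
    (hi : (interior (convexHull ℝ (S : Set E2))).Nonempty)
    (hne : ¬ ∃ A : E2 ≃ₗ[ℝ] E2, convexHull ℝ (S : Set E2) = A '' Sq) :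
    Mp p Sq < Mp p (convexHull ℝ (S : Set E2)) := by
  obtain ⟨T, hT, he, h⟩ := exists_irr S hs
  rw [he] at hi hne ⊢
  by_cases h4 : T.card ≤ 4
  · exact absurd (base hT h4 hi) hne
  · exact strict_irr hp hT (h.resolve_left h4) (by omega) hi

end Pool.Agent.TH922.PL
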