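import Pool.Agent.TH922.PL.A5

set_option autoImplicit false

/-!
Compactness: a uniform gap for symmetric polygons with many marked boundary points (helper922).
-/

open MeasureTheory Set Filter
open scoped ENNReal Topology Matrix Pointwise

namespace Pool.Agent.TH922.PL

open Pool.Agent.H131R5.LM Pool.Agent.H131R5.LC Pool.Agent.W679.A

variable {p : ℝ}

/-- comparison of the `L^p`-Mahler volumes of two close bodies -/
lemma Mp_close (hp : 0 < p) {P K : Set E2} (hP : IsCompact P) (hPi : (interior P).Nonempty)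
    (hK : IsCompact K) (hKi : (interior K).Nonempty) {ε : ℝ} (hε : 0 ≤ ε)
    (h1 : K ⊆ (fun x : E2 => (1 + ε) • x) '' P) (h2 : P ⊆ (fun x : E2 => (1 + ε) • x) '' K) :
    Mp p P ≤ ENNReal.ofReal (((1 + ε) ^ 4) ^ (1 + 1 / p)) * Mp p K := by
  have h0 : (1 + ε) ≠ 0 := by positivity
  set A : E2 ≃ₗ[ℝ] E2 := LinearEquiv.smulOfNeZero ℝ E2 (1 + ε) h0 with hA
  have hAi : ∀ X : Set E2, A '' X = (fun x => (1 + ε) • x) '' X := fun X => rfl
  have e1 : Mp p (A '' P) = Mp p P := Mp_image hp A hP hPi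
  have hAc : Continuous A := LinearMap.continuous_of_finiteDimensional A.toLinearMap
  rw [← e1]
  refine Mp_mono hp hK hKi (hP.image hAc) (by rw [hAi]; exact h1) ?_
  have hvol : ∀ X : Set E2, (volume (A '' X)).toReal = (1 + ε) ^ 2 * (volume X).toReal := by
    intro X
    have h3 : A '' X = (1 + ε) • X := rfl
    rw [h3, Measure.addHaar_smul, ENNReal.toReal_mul, ENNReal.toReal_ofReal (abs_nonneg _)]
    congr 1
    rw [Module.finrank_pi, Fintype.card_fin, abs_of_nonneg (by positivity)]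
  have h3 : (volume P).toReal ≤ (1 + ε) ^ 2 * (volume K).toReal := by
    rw [← hvol]
    exact ENNReal.toReal_mono (hK.image hAc).measure_lt_top.ne (measure_mono (by rw [hAi]; exact h2))
  rw [hvol]
  calc (1 + ε) ^ 2 * (volume P).toReal ≤ (1 + ε) ^ 2 * ((1 + ε) ^ 2 * (volume K).toReal) := by
        gcongr
    _ = (1 + ε) ^ 4 * (volume K).toReal := by ring

lemma le_of_close {c X : ℝ≥0∞} {q : ℝ}
    (h : ∀ ε : ℝ, 0 < ε → c ≤ ENNReal.ofReal (((1 + ε) ^ 4) ^ q) * X) : c ≤ X := by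
  have hT : Tendsto (fun ε : ℝ => ENNReal.ofReal (((1 + ε) ^ 4) ^ q) * X) (𝓝[>] 0)
      (𝓝 (ENNReal.ofReal (((1 + 0 : ℝ) ^ 4) ^ q) * X)) := by
    apply ENNReal.Tendsto.mul_const
    · apply ENNReal.tendsto_ofReal
      have h1 : ContinuousAt (fun ε : ℝ => ((1 + ε) ^ 4) ^ q) 0 := by
        apply ContinuousAt.rpow_const (by fun_prop)
        left; norm_num
      exact h1.tendsto.mono_left nhdsWithin_le_nhds
    · left
      simp
  have e : ENNReal.ofReal (((1 + 0 : ℝ) ^ 4) ^ q) * X = X := by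
    rw [add_zero, one_pow, Real.one_rpow, ENNReal.ofReal_one, one_mul]
  rw [e] at hT
  refine ge_of_tendsto hT ?_
  filter_upwards [self_mem_nhdsWithin] with ε hε
  exact h ε hε

/-- small perturbations of points of a body -/
lemma near_mem {P : Set E2} (hP : Convex ℝ P) {r ε : ℝ} (hε : 0 < ε)
    (hr : Metric.ball (0 : E2) r ⊆ P) {y y' : E2} (hy' : y' ∈ P) (h : ‖y - y'‖ < ε * r) :
    y ∈ (fun x : E2 => (1 + ε) • x) '' P := by
  have h1 : ε⁻¹ • (y - y') ∈ P := by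
    apply hr
    rw [Metric.mem_ball, dist_zero_right, norm_smul, norm_inv, Real.norm_of_nonneg hε.le]
    rw [inv_mul_lt_iff₀ hε]
    exact h
  have h1e : (0:ℝ) < 1 + ε := by linarith
  refine ⟨(1 / (1 + ε)) • y' + (ε / (1 + ε)) • (ε⁻¹ • (y - y')),
    hP hy' h1 (by positivity) (by positivity) (by field_simp), ?_⟩
  simp only
  rw [smul_add, smul_smul, smul_smul, smul_smul, mul_one_div_cancel h1e.ne']
  have e : (1 + ε) * (ε / (1 + ε)) * ε⁻¹ = 1 := by field_simp
  rw [e]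
  module

lemma sub_scale {P : Set E2} (hP : Convex ℝ P) (h0 : (0 : E2) ∈ P) {ε : ℝ} (hε : 0 ≤ ε) :
    P ⊆ (fun x : E2 => (1 + ε) • x) '' P := by
  intro y hy
  have h1e : (0:ℝ) < 1 + ε := by linarith
  refine ⟨(1 / (1 + ε)) • y + (ε / (1 + ε)) • (0 : E2),
    hP hy h0 (by positivity) (by positivity) (by field_simp), ?_⟩
  simp only
  rw [smul_zero, add_zero, smul_smul, mul_one_div_cancel h1e.ne', one_smul]

/-- two independent points give a ball -/
lemma ball_in {F : Set E2} (hs : ∀ s ∈ F, -s ∈ F) {a b : E2} (ha : a ∈ F) (hb : b ∈ F)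
    (hD : a 0 * b 1 - a 1 * b 0 ≠ 0) : ∃ r : ℝ, 0 < r ∧ Metric.ball (0 : E2) r ⊆
      convexHull ℝ F := by
  set D := a 0 * b 1 - a 1 * b 0 with hDd
  set M := |a 0| + |a 1| + |b 0| + |b 1| + 1 with hM
  have hM0 : 0 < M := by positivity
  have hD0 : 0 < |D| := abs_pos.2 hD
  refine ⟨|D| / (2 * M), by positivity, fun y hy => ?_⟩
  rw [Metric.mem_ball, dist_zero_right] at hy
  have hy0 : |y 0| ≤ ‖y‖ := norm_le_pi_norm y 0
  have hy1 : |y 1| ≤ ‖y‖ := norm_le_pi_norm y 1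
  set α := (y 0 * b 1 - y 1 * b 0) / D with hα
  set β := (a 0 * y 1 - a 1 * y 0) / D with hβ
  have hαβ : y = α • a + β • b := by
    have e0 : y 0 = α * a 0 + β * b 0 := by
      rw [hα, hβ]; field_simp; rw [hDd]; ring
    have e1 : y 1 = α * a 1 + β * b 1 := by
      rw [hα, hβ]; field_simp; rw [hDd]; ring
    ext i
    fin_cases i
    · simpa using e0
    · simpa using e1
  have hsum : |α| + |β| ≤ 1 := by
    rw [hα, hβ, abs_div, abs_div, ← add_div, div_le_one hD0]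
    have t1 : |y 0 * b 1 - y 1 * b 0| ≤ ‖y‖ * |b 1| + ‖y‖ * |b 0| := by
      refine (abs_sub _ _).trans ?_
      rw [abs_mul, abs_mul]
      gcongr
    have t2 : |a 0 * y 1 - a 1 * y 0| ≤ ‖y‖ * |a 0| + ‖y‖ * |a 1| := by
      refine (abs_sub _ _).trans ?_
      rw [abs_mul, abs_mul, mul_comm ‖y‖, mul_comm ‖y‖]
      gcongr
    have t3 : ‖y‖ * M ≤ |D| / 2 := by
      have : ‖y‖ * M ≤ |D| / (2 * M) * M := by gcongr
      have e : |D| / (2 * M) * M = |D| / 2 := by field_simp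
      linarith
    have t4 : ‖y‖ * M = ‖y‖ * |a 0| + ‖y‖ * |a 1| + ‖y‖ * |b 0| + ‖y‖ * |b 1| + ‖y‖ := by
      rw [hM]; ring
    have t5 := norm_nonneg y
    linarith
  have hcv := convex_convexHull ℝ F
  have h0 := zero_mem_hull hs ⟨a, ha⟩
  have hab : ∀ (c : ℝ) (z : E2), z ∈ F → c • z ∈ (fun x => |c| • x) '' convexHull ℝ F := by
    intro c z hz
    rcases le_total 0 c with h | h
    · exact ⟨z, subset_convexHull ℝ _ hz, by rw [abs_of_nonneg h]⟩
    · exact ⟨-z, subset_convexHull ℝ _ (hs z hz), by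
        simp only
        rw [abs_of_nonpos h, neg_smul_neg]⟩
  obtain ⟨x1, hx1, e1⟩ := hab α a ha
  obtain ⟨x2, hx2, e2⟩ := hab β b hb
  simp only at e1 e2
  rw [hαβ, ← e1, ← e2]
  have := hcv.sum_mem (t := (Finset.univ : Finset (Fin 3))) (w := ![|α|, |β|, 1 - |α| - |β|])
    (z := ![x1, x2, 0]) (by
      intro i _
      fin_cases i
      · simp
      · simp
      · simp; linarith) (by simp [Fin.sum_univ_three]) (by
      intro i _
      fin_cases i
      · simpa using hx1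
      · simpa using hx2
      · simpa using h0)
  simpa [Fin.sum_univ_three] using this

/-- the symmetric configuration given by a vector of points -/
noncomputable def Tx (F : Finset E2) {N : ℕ} (x : Fin N → E2) : Finset E2 :=
  F ∪ (Finset.univ.image x ∪ Finset.univ.image fun i => -x i)

lemma mem_Tx {F : Finset E2} {N : ℕ} {x : Fin N → E2} {s : E2} :
    s ∈ Tx F x ↔ s ∈ F ∨ (∃ i, x i = s) ∨ ∃ i, -x i = s := by
  unfold Tx
  simp only [Finset.mem_union, Finset.mem_image, Finset.mem_univ, true_and]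

lemma Tx_symm {F : Finset E2} (hF : ∀ f ∈ F, -f ∈ F) {N : ℕ} (x : Fin N → E2) :
    ∀ s ∈ Tx F x, -s ∈ Tx F x := by
  intro s hs
  rw [mem_Tx] at hs ⊢
  rcases hs with h | ⟨i, rfl⟩ | ⟨i, rfl⟩
  · exact Or.inl (hF s h)
  · exact Or.inr (Or.inr ⟨i, rfl⟩)
  · exact Or.inr (Or.inl ⟨i, by rw [neg_neg]⟩)

/-- hulls of close configurations -/
lemma Tx_close {F : Finset E2} (_hF : ∀ f ∈ F, -f ∈ F) {N : ℕ} {x y : Fin N → E2} {r ε : ℝ}
    (hε : 0 < ε) (hr0 : 0 < r) (hr : Metric.ball (0 : E2) r ⊆ convexHull ℝ (F : Set E2))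
    (h : ∀ i, ‖x i - y i‖ < ε * r) :
    convexHull ℝ (Tx F x : Set E2) ⊆
      (fun z : E2 => (1 + ε) • z) '' convexHull ℝ (Tx F y : Set E2) := by
  have hcv := convex_convexHull ℝ (Tx F y : Set E2)
  have hFy : (F : Set E2) ⊆ (Tx F y : Set E2) := fun f hf => mem_Tx.2 (Or.inl hf)
  have hr' := hr.trans (convexHull_mono hFy)
  have h0 : (0 : E2) ∈ convexHull ℝ (Tx F y : Set E2) := hr' (Metric.mem_ball_self hr0)
  have hc2 : Convex ℝ ((fun z : E2 => (1 + ε) • z) '' convexHull ℝ (Tx F y : Set E2)) :=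
    hcv.smul (1 + ε)
  apply convexHull_min _ hc2
  intro s hs
  rcases mem_Tx.1 hs with h1 | ⟨i, rfl⟩ | ⟨i, rfl⟩
  · exact sub_scale hcv h0 hε.le (subset_convexHull ℝ _ (hFy h1))
  · exact near_mem hcv hε hr' (subset_convexHull ℝ _ (mem_Tx.2 (Or.inr (Or.inl ⟨i, rfl⟩)))) (h i)
  · refine near_mem hcv hε hr' (subset_convexHull ℝ _ (mem_Tx.2 (Or.inr (Or.inr ⟨i, rfl⟩)))) ?_
    rw [← neg_sub', norm_neg]
    exact h i

/-- at most two points of `F` on every line -/
def NC (F : Finset E2) : Prop :=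
  ∀ g : E2 →ₗ[ℝ] ℝ, g ≠ 0 → ∀ x ∈ F, ∀ y ∈ F, ∀ z ∈ F, g x = g y → g y = g z →
    x = y ∨ y = z ∨ x = z

open Classical in
lemma NC.card {F : Finset E2} (h : NC F) {g : E2 →ₗ[ℝ] ℝ} (hg : g ≠ 0) (a : ℝ) :
    (F.filter fun f => g f = a).card ≤ 2 := by
  by_contra hcon
  push Not at hcon
  rw [Finset.two_lt_card] at hcon
  obtain ⟨x, hx, y, hy, z, hz, hxy, hxz, hyz⟩ := hcon
  rw [Finset.mem_filter] at hx hy hz
  rcases h g hg x hx.1 y hy.1 z hz.1 (by rw [hx.2, hy.2]) (by rw [hy.2, hz.2]) with e | e | e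
  · exact hxy e
  · exact hyz e
  · exact hxz e

/-- functionals as vectors -/
lemma exists_vec (g : E2 →ₗ[ℝ] ℝ) : ∃ γ : E2, ∀ x, g x = γ ⬝ᵥ x := by
  refine ⟨![g (Pi.single 0 1), g (Pi.single 1 1)], fun x => ?_⟩
  have e : x = x 0 • (Pi.single 0 1 : E2) + x 1 • (Pi.single 1 1 : E2) := by
    ext i; fin_cases i <;> simp
  conv_lhs => rw [e]
  rw [map_add, map_smul, map_smul, smul_eq_mul, smul_eq_mul]
  simp [dotProduct, Fin.sum_univ_two]
  ring

/-- vectors as functionals -/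
noncomputable def fn (γ : E2) : E2 →ₗ[ℝ] ℝ :=
  γ 0 • (LinearMap.proj 0 : E2 →ₗ[ℝ] ℝ) + γ 1 • (LinearMap.proj 1 : E2 →ₗ[ℝ] ℝ)

lemma fn_apply (γ x : E2) : fn γ x = γ ⬝ᵥ x := by
  unfold fn
  simp [dotProduct, Fin.sum_univ_two]

lemma dot2 (γ x : E2) : γ ⬝ᵥ x = γ 0 * x 0 + γ 1 * x 1 := by
  simp [dotProduct, Fin.sum_univ_two]

open Classical in
/-- **the uniform gap** -/
theorem gap (hp : 0 < p) {F : Finset E2} (hF : ∀ f ∈ F, -f ∈ F) (hNC : NC F)
    (h9 : 9 ≤ F.card) (N : ℕ) : ∃ c' : ℝ≥0∞, Mp p Sq < c' ∧ ∀ T : Finset E2, Cf F T →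
      T.card ≤ N → c' ≤ Mp p (convexHull ℝ (T : Set E2)) := by
  by_contra hcon
  push Not at hcon
  obtain ⟨f0, hf0⟩ : F.Nonempty := Finset.card_pos.1 (by omega)
  -- two independent points
  obtain ⟨a, ha, b, hb, hD⟩ : ∃ a ∈ F, ∃ b ∈ F, a 0 * b 1 - a 1 * b 0 ≠ 0 := by
    by_contra hno
    push Not at hno
    obtain ⟨a, ha, ha0⟩ : ∃ a ∈ F, a ≠ 0 := by
      by_contra h
      push Not at h
      have : F ⊆ {0} := fun x hx => by simp [h x hx]
      have := Finset.card_le_card this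
      simp at this
      omega
    set g : E2 →ₗ[ℝ] ℝ := fn ![-a 1, a 0] with hg
    have hgv : ∀ x, g x = a 0 * x 1 - a 1 * x 0 := by
      intro x; rw [hg, fn_apply, dot2]; simp; ring
    have hg0 : g ≠ 0 := by
      intro h
      apply ha0
      have h1 := congrArg (fun g : E2 →ₗ[ℝ] ℝ => g ![0, 1]) h
      have h2 := congrArg (fun g : E2 →ₗ[ℝ] ℝ => g ![1, 0]) h
      simp only [hgv, LinearMap.zero_apply] at h1 h2
      simp at h1 h2
      ext i
      fin_cases i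
      · simpa using h1
      · simpa using h2
    have h1 := hNC.card hg0 0
    rw [Finset.filter_true_of_mem (fun x hx => by rw [hgv]; exact hno a ha x hx)] at h1
    omega
  obtain ⟨r, hr0, hr⟩ := ball_in (F := (F : Set E2)) hF ha hb hD
  have hFi : (interior (convexHull ℝ (F : Set E2))).Nonempty :=
    ⟨0, mem_interior.2 ⟨_, hr, Metric.isOpen_ball, Metric.mem_ball_self hr0⟩⟩
  have hcf : Mp p Sq ≠ ⊤ := by
    refine Mp_fin hp Sq_comp ?_
    refine mem_interior.2 ⟨Metric.ball 0 1, ?_, Metric.isOpen_ball, Metric.mem_ball_self one_pos⟩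
    intro x hx i
    rw [Metric.mem_ball, dist_zero_right] at hx
    have := norm_le_pi_norm x i
    rw [Real.norm_eq_abs] at this
    linarith
  -- the minimising sequence
  choose T hTC hTN hTM using fun k : ℕ => hcon (Mp p Sq + ((k : ℝ≥0∞) + 1)⁻¹)
    (ENNReal.lt_add_right hcf (ENNReal.inv_ne_zero.2 (by
      exact_mod_cast ENNReal.natCast_ne_top (k + 1))))
  have hTs := fun k => (hTC k).symm
  have hFT : ∀ k, (F : Set E2) ⊆ (T k : Set E2) := fun k => (hTC k).sub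
  -- marks
  have hmk : ∀ k, ∃ γ : F → E2, ∀ f : F, γ f ⬝ᵥ (f : E2) = 1 ∧ ∀ s ∈ T k, γ f ⬝ᵥ s ≤ 1 := by
    intro k
    have h1 : ∀ f : F, ∃ γ : E2, γ ⬝ᵥ (f : E2) = 1 ∧ ∀ s ∈ T k, γ ⬝ᵥ s ≤ 1 := by
      intro f
      obtain ⟨g, g1, g2⟩ := (hTC k).mark f f.2
      obtain ⟨γ, hγ⟩ := exists_vec g
      exact ⟨γ, by rw [← hγ]; exact g1, fun s hs => by rw [← hγ]; exact g2 s hs⟩
    choose γ hγ using h1
    exact ⟨γ, hγ⟩
  choose γ hγ1 using hmk
  have hγabs : ∀ k f, ∀ s ∈ T k, |γ k f ⬝ᵥ s| ≤ 1 := by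
    intro k f s hs
    rw [abs_le]
    have h1 := (hγ1 k f).2 s hs
    have h2 := (hγ1 k f).2 (-s) (hTs k s hs)
    rw [dotProduct_neg] at h2
    constructor <;> linarith
  have hγball : ∀ k f, ∀ y ∈ convexHull ℝ (T k : Set E2), |γ k f ⬝ᵥ y| ≤ 1 := by
    intro k f
    have hcv : Convex ℝ {y : E2 | |γ k f ⬝ᵥ y| ≤ 1} := by
      intro x hx y hy s t hs ht hst
      simp only [mem_ofPred_eq] at hx hy ⊢
      rw [dotProduct_add, dotProduct_smul, dotProduct_smul, smul_eq_mul, smul_eq_mul]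
      calc |s * (γ k f ⬝ᵥ x) + t * (γ k f ⬝ᵥ y)| ≤ |s * (γ k f ⬝ᵥ x)| + |t * (γ k f ⬝ᵥ y)| :=
            abs_add_le _ _
        _ = s * |γ k f ⬝ᵥ x| + t * |γ k f ⬝ᵥ y| := by
            rw [abs_mul, abs_mul, abs_of_nonneg hs, abs_of_nonneg ht]
        _ ≤ s * 1 + t * 1 := by gcongr
        _ = 1 := by linarith
    exact fun y hy => convexHull_min (fun s hs => hγabs k f s hs) hcv hy
  have hγbd : ∀ k f i, |γ k f i| ≤ 2 / r := by
    intro k f i
    have h1 : (r / 2) • (Pi.single i 1 : E2) ∈ convexHull ℝ (T k : Set E2) := by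
      apply (hr.trans (convexHull_mono (hFT k)))
      rw [Metric.mem_ball, dist_zero_right, norm_smul, Real.norm_of_nonneg (by positivity)]
      have : ‖(Pi.single i 1 : E2)‖ ≤ 1 := by
        rw [pi_norm_le_iff_of_nonneg zero_le_one]
        intro j
        by_cases h : j = i
        · subst h; simp
        · simp [Pi.single_eq_of_ne h]
      nlinarith
    have h2 := hγball k f _ h1
    rw [dotProduct_smul, dotProduct_single_one, smul_eq_mul, abs_mul,
      abs_of_nonneg (by positivity : 0 ≤ r / 2)] at h2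
    rw [le_div_iff₀ hr0]
    nlinarith
  -- enumerations
  have henum : ∀ k, ∃ x : Fin N → E2, ∀ s, s ∈ T k ↔ ∃ i, x i = s := by
    intro k
    have hne : (T k).Nonempty := ⟨f0, hFT k hf0⟩
    have h1 : Fintype.card (T k) ≤ Fintype.card (Fin N) := by
      rw [Fintype.card_coe, Fintype.card_fin]; exact hTN k
    obtain ⟨e⟩ := Function.Embedding.nonempty_of_card_le h1
    have hnon : Nonempty (T k) := ⟨⟨_, hne.choose_spec⟩⟩
    set ei : Fin N → (T k) := Function.invFun (⇑e) with hei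
    refine ⟨fun i => (ei i : E2), fun s => ⟨fun hs => ?_, ?_⟩⟩
    · refine ⟨e ⟨s, hs⟩, ?_⟩
      have h2 : ei (e ⟨s, hs⟩) = ⟨s, hs⟩ := Function.leftInverse_invFun e.injective ⟨s, hs⟩
      simp only [h2]
    · rintro ⟨i, rfl⟩
      exact (ei i).2
  choose x hx using henum
  -- convergence of the marks
  obtain ⟨γ', -, φ, hφ, hγlim⟩ := tendsto_subseq_of_bounded
    (s := Metric.closedBall (0 : F → E2) (2 / r)) Metric.isBounded_closedBall (x := γ) (by
      intro k
      rw [mem_closedBall_zero_iff, pi_norm_le_iff_of_nonneg (by positivity)]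
      intro f
      rw [pi_norm_le_iff_of_nonneg (by positivity)]
      intro i
      exact hγbd k f i)
  have hγc : ∀ f i, Tendsto (fun k => γ (φ k) f i) atTop (𝓝 (γ' f i)) := by
    intro f i
    exact tendsto_pi_nhds.1 (tendsto_pi_nhds.1 hγlim f) i
  have hdot : ∀ (f : F) (s : E2), Tendsto (fun k => γ (φ k) f ⬝ᵥ s) atTop (𝓝 (γ' f ⬝ᵥ s)) := by
    intro f s
    simp only [dot2]
    exact ((hγc f 0).mul_const _).add ((hγc f 1).mul_const _)
  have hγ'1 : ∀ f : F, γ' f ⬝ᵥ (f : E2) = 1 := by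
    intro f
    refine tendsto_nhds_unique (hdot f f) ?_
    simp only [fun k => (hγ1 (φ k) f).1]
    exact tendsto_const_nhds
  have hγ'2 : ∀ f f' : F, |γ' f ⬝ᵥ (f' : E2)| ≤ 1 := by
    intro f f'
    refine le_of_tendsto (hdot f f').abs (Eventually.of_forall fun k => ?_)
    exact hγabs (φ k) f _ (hFT _ f'.2)
  -- two of the marks are independent
  obtain ⟨f1, f2, hdet⟩ : ∃ f1 f2 : F, γ' f1 0 * γ' f2 1 - γ' f1 1 * γ' f2 0 ≠ 0 := by
    by_contra hno
    push Not at hno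
    set F0 : F := ⟨f0, hf0⟩ with hF0
    have h1 : ∀ f ∈ F, γ' F0 ⬝ᵥ f = 1 ∨ γ' F0 ⬝ᵥ f = -1 := by
      intro f hf
      have q1 := hγ'1 ⟨f, hf⟩
      have q2 := hγ'1 F0
      have q3 := hγ'2 ⟨f, hf⟩ F0
      have q4 := hγ'2 F0 ⟨f, hf⟩
      have q5 := hno ⟨f, hf⟩ F0
      simp only at q1 q4
      have q6 : (γ' ⟨f, hf⟩ ⬝ᵥ f) * (γ' F0 ⬝ᵥ (F0 : E2)) -
          (γ' ⟨f, hf⟩ ⬝ᵥ (F0 : E2)) * (γ' F0 ⬝ᵥ f) =
          (γ' ⟨f, hf⟩ 0 * γ' F0 1 - γ' ⟨f, hf⟩ 1 * γ' F0 0) *
            (f 0 * (F0 : E2) 1 - f 1 * (F0 : E2) 0) := by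
        simp only [dot2]; ring
      rw [q1, q2, q5, zero_mul, one_mul] at q6
      rw [abs_le] at q3 q4
      set X := γ' ⟨f, hf⟩ ⬝ᵥ (F0 : E2)
      set Y := γ' F0 ⬝ᵥ f
      rcases le_total 0 Y with hY | hY
      · left; nlinarith
      · right; nlinarith
    have hg : fn (γ' F0) ≠ 0 := by
      intro h
      have := congrArg (fun g : E2 →ₗ[ℝ] ℝ => g (F0 : E2)) h
      simp only [fn_apply, LinearMap.zero_apply] at this
      rw [hγ'1 F0] at this
      exact one_ne_zero this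
    have h2 := hNC.card hg 1
    have h3 := hNC.card hg (-1)
    have h4 : F ⊆ (F.filter fun f => fn (γ' F0) f = 1) ∪ F.filter fun f => fn (γ' F0) f = -1 := by
      intro f hf
      rw [Finset.mem_union, Finset.mem_filter, Finset.mem_filter, fn_apply]
      rcases h1 f hf with h | h
      · exact Or.inl ⟨hf, h⟩
      · exact Or.inr ⟨hf, h⟩
    have h5 := Finset.card_le_card h4
    have h6 := Finset.card_union_le (F.filter fun f => fn (γ' F0) f = 1)
      (F.filter fun f => fn (γ' F0) f = -1)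
    omega
  set δ := |γ' f1 0 * γ' f2 1 - γ' f1 1 * γ' f2 0| with hδ
  have hδ0 : 0 < δ := abs_pos.2 hdet
  have hdetc : ∀ᶠ k in atTop, δ / 2 < |γ (φ k) f1 0 * γ (φ k) f2 1 -
      γ (φ k) f1 1 * γ (φ k) f2 0| := by
    have h1 : Tendsto (fun k => |γ (φ k) f1 0 * γ (φ k) f2 1 - γ (φ k) f1 1 * γ (φ k) f2 0|)
        atTop (𝓝 δ) :=
      (((hγc f1 0).mul (hγc f2 1)).sub ((hγc f1 1).mul (hγc f2 0))).abs
    exact h1.eventually_const_lt (by linarith)
  -- convergence of the points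
  obtain ⟨x', -, ψ, hψ, hxlim⟩ := tendsto_subseq_of_frequently_bounded
    (s := Metric.closedBall (0 : Fin N → E2) (8 / (r * δ))) Metric.isBounded_closedBall
    (x := fun k => x (φ k)) (by
      refine Eventually.frequently ?_
      filter_upwards [hdetc] with k hk
      rw [mem_closedBall_zero_iff, pi_norm_le_iff_of_nonneg (by positivity)]
      intro i
      have hxi : x (φ k) i ∈ T (φ k) := (hx (φ k) _).2 ⟨i, rfl⟩
      have b1 := hγabs (φ k) f1 _ hxi
      have b2 := hγabs (φ k) f2 _ hxi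
      have c1 := hγbd (φ k) f1
      have c2 := hγbd (φ k) f2
      set X := x (φ k) i
      set u := γ (φ k) f1
      set w := γ (φ k) f2
      have key : ∀ (A B : ℝ), |A| ≤ 2 / r → |B| ≤ 2 / r → ∀ z : ℝ,
          (u 0 * w 1 - u 1 * w 0) * z = (u ⬝ᵥ X) * A - (w ⬝ᵥ X) * B → |z| ≤ 8 / (r * δ) := by
        intro A B hA hB z hz
        have e1 : |(u 0 * w 1 - u 1 * w 0) * z| ≤ 4 / r := by
          rw [hz]
          refine (abs_sub _ _).trans ?_
          rw [abs_mul, abs_mul]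
          have t1 : |u ⬝ᵥ X| * |A| ≤ 1 * (2 / r) := by gcongr
          have t2 : |w ⬝ᵥ X| * |B| ≤ 1 * (2 / r) := by gcongr
          have t3 : (4:ℝ) / r = 1 * (2 / r) + 1 * (2 / r) := by ring
          rw [t3]
          exact add_le_add t1 t2
        rw [abs_mul] at e1
        have e2 : δ / 2 * |z| ≤ 4 / r := by
          refine le_trans ?_ e1
          gcongr
        rw [le_div_iff₀ hr0] at e2
        rw [le_div_iff₀ (by positivity)]
        nlinarith
      rw [pi_norm_le_iff_of_nonneg (by positivity)]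
      intro j
      rw [Real.norm_eq_abs]
      fin_cases j
      · refine key (w 1) (u 1) (c2 1) (c1 1) _ ?_
        simp only [dot2, Fin.zero_eta]; ring
      · refine key (-w 0) (-u 0) (by rw [abs_neg]; exact c2 0) (by rw [abs_neg]; exact c1 0) _ ?_
        simp only [dot2, Fin.mk_one]; ring)
  set χ : ℕ → ℕ := fun k => φ (ψ k) with hχ
  have hχt : Tendsto χ atTop atTop := hφ.tendsto_atTop.comp hψ.tendsto_atTop
  have hxc : ∀ i, Tendsto (fun k => x (χ k) i) atTop (𝓝 (x' i)) := fun i =>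
    tendsto_pi_nhds.1 hxlim i
  have hγχ : ∀ f i, Tendsto (fun k => γ (χ k) f i) atTop (𝓝 (γ' f i)) := fun f i =>
    (hγc f i).comp hψ.tendsto_atTop
  -- the limit configuration
  have hTx : ∀ k, (T k : Set E2) = (Tx F (x k) : Set E2) := by
    intro k
    ext s
    rw [Finset.mem_coe, Finset.mem_coe, mem_Tx]
    constructor
    · intro hs; exact Or.inr (Or.inl ((hx k s).1 hs))
    · rintro (h | h | ⟨i, rfl⟩)
      · exact hFT k h
      · exact (hx k s).2 h
      · exact hTs k _ ((hx k _).2 ⟨i, rfl⟩)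
  have hTi : ∀ y : Fin N → E2, (interior (convexHull ℝ (Tx F y : Set E2))).Nonempty := by
    intro y
    refine hFi.mono (interior_mono (convexHull_mono ?_))
    intro f hf
    exact mem_Tx.2 (Or.inl hf)
  have hmark' : ∀ f : F, ∀ s ∈ Tx F x', γ' f ⬝ᵥ s ≤ 1 := by
    intro f s hs
    have hdx : ∀ i, Tendsto (fun k => γ (χ k) f ⬝ᵥ x (χ k) i) atTop (𝓝 (γ' f ⬝ᵥ x' i)) := by
      intro i
      simp only [dot2]
      have h0 := tendsto_pi_nhds.1 (hxc i) 0
      have h1 := tendsto_pi_nhds.1 (hxc i) 1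
      exact ((hγχ f 0).mul h0).add ((hγχ f 1).mul h1)
    have habs : ∀ i, |γ' f ⬝ᵥ x' i| ≤ 1 := fun i =>
      le_of_tendsto (hdx i).abs (Eventually.of_forall fun k =>
        hγabs (χ k) f _ ((hx (χ k) _).2 ⟨i, rfl⟩))
    rcases mem_Tx.1 hs with h | ⟨i, rfl⟩ | ⟨i, rfl⟩
    · exact (abs_le.1 (hγ'2 f ⟨s, h⟩)).2
    · exact (abs_le.1 (habs i)).2
    · rw [dotProduct_neg]
      have := (abs_le.1 (habs i)).1
      linarith
  -- it is not a parallelogram
  have hnot : ¬ ∃ A : E2 ≃ₗ[ℝ] E2, convexHull ℝ (Tx F x' : Set E2) = A '' Sq := by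
    rintro ⟨A, hA⟩
    have h1 : ∀ f ∈ F, (A.symm f 0 = 1 ∨ A.symm f 0 = -1) ∨ (A.symm f 1 = 1 ∨ A.symm f 1 = -1) := by
      intro f hf
      have hfm : f ∈ A '' Sq := by
        rw [← hA]; exact subset_convexHull ℝ _ (mem_Tx.2 (Or.inl hf))
      obtain ⟨y, hy, hyf⟩ := hfm
      have hys : A.symm f = y := by rw [← hyf, A.symm_apply_apply]
      rw [hys]
      by_contra hno
      push Not at hno
      have y0 := abs_le.1 (hy 0)
      have y1 := abs_le.1 (hy 1)
      have y0' : |y 0| < 1 := by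
        rw [abs_lt]
        exact ⟨lt_of_le_of_ne y0.1 (Ne.symm hno.1.2), lt_of_le_of_ne y0.2 hno.1.1⟩
      have y1' : |y 1| < 1 := by
        rw [abs_lt]
        exact ⟨lt_of_le_of_ne y1.1 (Ne.symm hno.2.2), lt_of_le_of_ne y1.2 hno.2.1⟩
      set m := max (max |y 0| |y 1|) (1 / 2) with hm
      have hm1 : m < 1 := max_lt (max_lt y0' y1') (by norm_num)
      have hm0 : 0 < m := lt_of_lt_of_le (by norm_num) (le_max_right _ _)
      have hmy : m⁻¹ • y ∈ Sq := by
        intro i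
        rw [Pi.smul_apply, smul_eq_mul, abs_mul, abs_of_nonneg (by positivity),
          inv_mul_le_iff₀ hm0, mul_one]
        fin_cases i
        · exact (le_max_left _ _).trans (le_max_left _ _)
        · exact (le_max_right _ _).trans (le_max_left _ _)
      have hAm : A (m⁻¹ • y) ∈ convexHull ℝ (Tx F x' : Set E2) := by
        rw [hA]; exact ⟨_, hmy, rfl⟩
      have hcv : Convex ℝ {z : E2 | γ' ⟨f, hf⟩ ⬝ᵥ z ≤ 1} := by
        intro a ha b hb s t hs ht hst
        simp only [mem_ofPred_eq] at ha hb ⊢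
        rw [dotProduct_add, dotProduct_smul, dotProduct_smul, smul_eq_mul, smul_eq_mul]
        nlinarith
      have h2 : γ' ⟨f, hf⟩ ⬝ᵥ A (m⁻¹ • y) ≤ 1 :=
        convexHull_min (fun s hs => hmark' ⟨f, hf⟩ s hs) hcv hAm
      rw [map_smul, hyf, dotProduct_smul, smul_eq_mul] at h2
      have h3 := hγ'1 ⟨f, hf⟩
      simp only at h3
      rw [h3, mul_one] at h2
      have h4 : 1 < m⁻¹ := (one_lt_inv₀ hm0).2 hm1
      linarith
    set g0 : E2 →ₗ[ℝ] ℝ := (LinearMap.proj 0 : E2 →ₗ[ℝ] ℝ).comp A.symm.toLinearMap with hg0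
    set g1 : E2 →ₗ[ℝ] ℝ := (LinearMap.proj 1 : E2 →ₗ[ℝ] ℝ).comp A.symm.toLinearMap with hg1
    have hg0v : ∀ z, g0 z = A.symm z 0 := fun z => rfl
    have hg1v : ∀ z, g1 z = A.symm z 1 := fun z => rfl
    have hg0n : g0 ≠ 0 := by
      intro h
      have := congrArg (fun g : E2 →ₗ[ℝ] ℝ => g (A ![1, 0])) h
      simp only [hg0v, A.symm_apply_apply, LinearMap.zero_apply] at this
      simp at this
    have hg1n : g1 ≠ 0 := by
      intro h
      have := congrArg (fun g : E2 →ₗ[ℝ] ℝ => g (A ![0, 1])) h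
      simp only [hg1v, A.symm_apply_apply, LinearMap.zero_apply] at this
      simp at this
    have k1 := hNC.card hg0n 1
    have k2 := hNC.card hg0n (-1)
    have k3 := hNC.card hg1n 1
    have k4 := hNC.card hg1n (-1)
    set Q1 := F.filter fun f => g0 f = 1
    set Q2 := F.filter fun f => g0 f = -1
    set Q3 := F.filter fun f => g1 f = 1
    set Q4 := F.filter fun f => g1 f = -1
    have h4 : F ⊆ (Q1 ∪ Q2) ∪ (Q3 ∪ Q4) := by
      intro f hf
      simp only [Finset.mem_union, Q1, Q2, Q3, Q4, Finset.mem_filter, hg0v, hg1v]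
      rcases h1 f hf with (h | h) | (h | h)
      · exact Or.inl (Or.inl ⟨hf, h⟩)
      · exact Or.inl (Or.inr ⟨hf, h⟩)
      · exact Or.inr (Or.inl ⟨hf, h⟩)
      · exact Or.inr (Or.inr ⟨hf, h⟩)
    have h5 := Finset.card_le_card h4
    have h6 := Finset.card_union_le (Q1 ∪ Q2) (Q3 ∪ Q4)
    have h7 := Finset.card_union_le Q1 Q2
    have h8 := Finset.card_union_le Q3 Q4
    omega
  have hstrict := poly_strict hp (Tx_symm hF x') (hTi x') hnot
  refine absurd hstrict (not_lt.2 ?_)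
  refine le_of_close (q := 1 + 1 / p) fun ε hε => ?_
  -- for fixed ε
  have hlim : Tendsto (fun k : ℕ => ENNReal.ofReal (((1 + ε) ^ 4) ^ (1 + 1 / p)) *
      (Mp p Sq + (((χ k : ℕ) : ℝ≥0∞) + 1)⁻¹)) atTop
      (𝓝 (ENNReal.ofReal (((1 + ε) ^ 4) ^ (1 + 1 / p)) * (Mp p Sq + 0))) := by
    apply ENNReal.Tendsto.const_mul
    · apply Tendsto.add tendsto_const_nhds
      have h1 : Tendsto (fun k : ℕ => (((k : ℕ) : ℝ≥0∞) + 1)⁻¹) atTop (𝓝 0) := by
        have h2 := ENNReal.tendsto_inv_nat_nhds_zero.comp (tendsto_add_atTop_nat 1)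
        refine h2.congr fun k => ?_
        simp
      exact h1.comp hχt
    · right; exact ENNReal.ofReal_ne_top
  rw [add_zero] at hlim
  refine ge_of_tendsto hlim ?_
  have hev : ∀ᶠ k in atTop, ∀ i, ‖x (χ k) i - x' i‖ < ε * r := by
    rw [eventually_all]
    intro i
    have h1 : Tendsto (fun k => ‖x (χ k) i - x' i‖) atTop (𝓝 0) := by
      have := ((hxc i).sub_const (x' i)).norm
      rwa [sub_self, norm_zero] at this
    exact h1.eventually_lt_const (by positivity)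
  filter_upwards [hev] with k hk
  have hcomp : ∀ y : Fin N → E2, IsCompact (convexHull ℝ (Tx F y : Set E2)) := fun y =>
    (Tx F y).finite_toSet.isCompact_convexHull ℝ
  have h1 := Mp_close hp (hcomp x') (hTi x') (hcomp (x (χ k))) (hTi (x (χ k))) hε.le
    (Tx_close hF hε hr0 hr hk)
    (Tx_close hF hε hr0 hr (fun i => by rw [norm_sub_rev]; exact hk i))
  refine h1.trans ?_
  rw [← hTx]
  gcongr
  exact (hTM (χ k)).le

end Pool.Agent.TH922.PL
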