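import Pool.Agent.TH922.PL.A6

set_option autoImplicit false

/-!
Strict inequality for all planar symmetric bodies except the parallelograms (helper922).
-/

open MeasureTheory Set Filter
open scoped ENNReal Topology Matrix Pointwise

namespace Pool.Agent.TH922.PL

open Pool.Agent.H131R5.LM Pool.Agent.H131R5.LC Pool.Agent.W679.A

variable {p : ℝ}

/-- three points on a line -/
lemma three_line {g : E2 →ₗ[ℝ] ℝ} (hg : g ≠ 0) {x y z : E2} (hxy : g x = g y) (hyz : g y = g z)
    (n1 : x ≠ y) (n2 : y ≠ z) (n3 : x ≠ z) :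
    y ∈ openSegment ℝ x z ∨ x ∈ openSegment ℝ y z ∨ z ∈ openSegment ℝ x y := by
  obtain ⟨γ, hγ⟩ := exists_vec g
  have hgv : ∀ a : E2, g a = γ 0 * a 0 + γ 1 * a 1 := fun a => by rw [hγ, dot2]
  have hD : 0 < γ 0 ^ 2 + γ 1 ^ 2 := by
    by_contra hc
    push Not at hc
    have h2 : γ 0 = 0 := by nlinarith [sq_nonneg (γ 0), sq_nonneg (γ 1)]
    have h3 : γ 1 = 0 := by nlinarith [sq_nonneg (γ 0), sq_nonneg (γ 1)]
    apply hg
    ext a
    rw [LinearMap.comp_apply, hgv, h2, h3]
    simp
  set hh : E2 → ℝ := fun a => -γ 1 * a 0 + γ 0 * a 1 with hhh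
  have inj : ∀ a b : E2, g a = g b → hh a = hh b → a = b := by
    intro a b e1 e2
    rw [hgv, hgv] at e1
    simp only [hhh] at e2
    have f0 : (γ 0 ^ 2 + γ 1 ^ 2) * (a 0 - b 0) = 0 := by linear_combination γ 0 * e1 - γ 1 * e2
    have f1 : (γ 0 ^ 2 + γ 1 ^ 2) * (a 1 - b 1) = 0 := by linear_combination γ 1 * e1 + γ 0 * e2
    have k0 : a 0 = b 0 := by
      rcases mul_eq_zero.1 f0 with h | h
      · exact absurd h hD.ne'
      · linarith
    have k1 : a 1 = b 1 := by
      rcases mul_eq_zero.1 f1 with h | h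
      · exact absurd h hD.ne'
      · linarith
    ext i
    fin_cases i
    · exact k0
    · exact k1
  have key : ∀ x y z : E2, g x = g y → g y = g z → x ≠ y → y ≠ z → hh x ≤ hh y → hh y ≤ hh z →
      y ∈ openSegment ℝ x z := by
    intro x y z e1 e2 hxy hyz h1 h2
    have h3 : hh x < hh y := lt_of_le_of_ne h1 fun e => hxy (inj x y e1 e)
    have h3' : hh y < hh z := lt_of_le_of_ne h2 fun e => hyz (inj y z e2 e)
    have h4 : 0 < hh z - hh x := by linarith
    set l := (hh y - hh x) / (hh z - hh x) with hl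
    have hl0 : 0 < l := div_pos (by linarith) h4
    have hl1 : l < 1 := by rw [hl, div_lt_one h4]; linarith
    refine ⟨1 - l, l, by linarith, hl0, by ring, ?_⟩
    apply inj
    · rw [map_add, map_smul, map_smul, smul_eq_mul, smul_eq_mul, ← e2, e1]; ring
    · have : hh ((1 - l) • x + l • z) = hh x + l * (hh z - hh x) := by
        simp only [hhh, Pi.add_apply, Pi.smul_apply, smul_eq_mul]; ring
      rw [this, hl, div_mul_cancel₀ _ h4.ne']; ring
  rcases le_total (hh x) (hh y) with a | a <;> rcases le_total (hh y) (hh z) with b | b <;>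
    rcases le_total (hh x) (hh z) with c | c
  · exact Or.inl (key x y z hxy hyz n1 n2 a b)
  · exact Or.inl (key x y z hxy hyz n1 n2 a b)
  · exact Or.inr (Or.inr (key x z y (hxy.trans hyz) hyz.symm n3 n2.symm c b))
  · exact Or.inr (Or.inl (openSegment_symm ℝ z y ▸
      key z x y (hxy.trans hyz).symm hxy n3.symm n1 c a))
  · exact Or.inr (Or.inl (key y x z hxy.symm (hxy.trans hyz) n1.symm n3 a c))
  · exact Or.inr (Or.inr (openSegment_symm ℝ y x ▸
      key y z x hyz (hxy.trans hyz).symm n2 n3.symm b c))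
  · exact Or.inl (openSegment_symm ℝ z x ▸ key z y x hyz.symm hxy.symm n2.symm n1.symm b a)
  · exact Or.inl (openSegment_symm ℝ z x ▸ key z y x hyz.symm hxy.symm n2.symm n1.symm b a)

variable {K : Set E2}

lemma zero_int (hconv : Convex ℝ K) (hi : (interior K).Nonempty) (hs : ∀ x ∈ K, -x ∈ K) :
    (0 : E2) ∈ interior K := by
  obtain ⟨x, hx⟩ := hi
  have hn : -x ∈ interior K := by
    have h1 : (Homeomorph.neg E2) '' interior K = interior ((Homeomorph.neg E2) '' K) :=
      (Homeomorph.neg E2).image_interior K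
    have h2 : (Homeomorph.neg E2) '' K = K := by
      ext y
      constructor
      · rintro ⟨z, hz, rfl⟩; exact hs z hz
      · intro hy; exact ⟨-y, hs y hy, neg_neg y⟩
    rw [h2] at h1
    rw [← h1]
    exact ⟨x, hx, rfl⟩
  have h := hconv.interior hx hn (by norm_num : (0:ℝ) ≤ 1 / 2) (by norm_num : (0:ℝ) ≤ 1 / 2)
    (by norm_num)
  simpa using h

/-- extreme points have support functionals -/
lemma ext_mark (hconv : Convex ℝ K) (h0 : (0 : E2) ∈ interior K) {f : E2}
    (hf : f ∈ K.extremePoints ℝ) : ∃ g : E2 →ₗ[ℝ] ℝ, g f = 1 ∧ ∀ x ∈ K, g x ≤ 1 := by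
  have hfi : f ∉ interior K := by
    intro hfi
    obtain ⟨ε, hε, hb⟩ := Metric.isOpen_iff.1 isOpen_interior f hfi
    set v : E2 := (ε / 2) • (Pi.single 0 1 : E2) with hv
    have hvn : ‖v‖ < ε := by
      rw [hv, norm_smul, Real.norm_of_nonneg (by positivity)]
      have : ‖(Pi.single 0 1 : E2)‖ ≤ 1 := by
        rw [pi_norm_le_iff_of_nonneg zero_le_one]
        intro j
        fin_cases j <;> simp
      nlinarith
    have h1 : f - v ∈ K := interior_subset (hb (by
      rw [Metric.mem_ball, dist_eq_norm, sub_sub_cancel_left, norm_neg]; exact hvn))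
    have h2 : f + v ∈ K := interior_subset (hb (by
      rw [Metric.mem_ball, dist_eq_norm, add_sub_cancel_left]; exact hvn))
    have h3 : f ∈ openSegment ℝ (f - v) (f + v) :=
      ⟨1 / 2, 1 / 2, by norm_num, by norm_num, by norm_num, by module⟩
    have h4 := ((mem_extremePoints.1 hf).2 _ h1 _ h2 h3).1
    have h5 : v = 0 := by
      have : f - v = f := h4
      simpa using this
    have h6 := congrFun h5 0
    rw [hv] at h6
    simp at h6
    exact hε.ne' h6
  obtain ⟨g, hg⟩ := geometric_hahn_banach_open_point hconv.interior isOpen_interior hfi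
  have hgf : 0 < g f := by
    have := hg 0 h0
    rwa [map_zero] at this
  have hK : ∀ x ∈ K, g x ≤ g f := by
    have h1 : K ⊆ closure (interior K) := by
      rw [hconv.closure_interior_eq_closure_of_nonempty_interior ⟨0, h0⟩]
      exact subset_closure
    have h2 : closure (interior K) ⊆ {x | g x ≤ g f} :=
      closure_minimal (fun x hx => (hg x hx).le) (isClosed_le g.continuous continuous_const)
    exact fun x hx => h2 (h1 hx)
  refine ⟨(1 / g f) • (g : E2 →ₗ[ℝ] ℝ), ?_, fun x hx => ?_⟩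
  · rw [LinearMap.smul_apply, smul_eq_mul]
    exact one_div_mul_cancel hgf.ne'
  · rw [LinearMap.smul_apply, smul_eq_mul, one_div, inv_mul_le_iff₀ hgf, mul_one]
    exact hK x hx

lemma ext_neg (hs : ∀ x ∈ K, -x ∈ K) {f : E2} (hf : f ∈ K.extremePoints ℝ) :
    -f ∈ K.extremePoints ℝ := by
  rw [mem_extremePoints] at hf ⊢
  refine ⟨hs f hf.1, fun x hx y hy hxy => ?_⟩
  obtain ⟨a, b, ha, hb, hab, he⟩ := hxy
  have h := hf.2 (-x) (hs x hx) (-y) (hs y hy) ⟨a, b, ha, hb, hab, by
    rw [← neg_neg f, ← he]; module⟩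
  exact ⟨by rw [← h.1, neg_neg], by rw [← h.2, neg_neg]⟩

lemma ext_NC {F : Finset E2} (hF : ∀ f ∈ F, f ∈ K.extremePoints ℝ) : NC F := by
  intro g hg x hx y hy z hz hxy hyz
  by_contra hcon
  push Not at hcon
  obtain ⟨n1, n2, n3⟩ := hcon
  have hX := mem_extremePoints.1 (hF x hx)
  have hY := mem_extremePoints.1 (hF y hy)
  have hZ := mem_extremePoints.1 (hF z hz)
  rcases three_line hg hxy hyz n1 n2 n3 with h | h | h
  · exact n1 (hY.2 x hX.1 z hZ.1 h).1
  · exact n1 (hX.2 y hY.1 z hZ.1 h).1.symm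
  · exact n3 (hZ.2 x hX.1 y hY.1 h).1

/-- inner approximation by symmetric polygons through given points -/
lemma inner_approx (hc : IsCompact K) (hconv : Convex ℝ K) (h0 : (0 : E2) ∈ interior K)
    (hs : ∀ x ∈ K, -x ∈ K) {F : Finset E2} (hFs : ∀ f ∈ F, -f ∈ F) (hFK : (F : Set E2) ⊆ K)
    {ε : ℝ} (hε : 0 < ε) : ∃ S : Finset E2, (∀ s ∈ S, -s ∈ S) ∧ F ⊆ S ∧ (S : Set E2) ⊆ K ∧
      (interior (convexHull ℝ (S : Set E2))).Nonempty ∧
      K ⊆ (fun x : E2 => (1 + ε) • x) '' convexHull ℝ (S : Set E2) := by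
  classical
  have h1e : (0:ℝ) < 1 + ε := by linarith
  set K' : Set E2 := (fun x : E2 => (1 / (1 + ε)) • x) '' K with hK'
  have hK'c : IsCompact K' := hc.image (by fun_prop)
  have hK'v : Convex ℝ K' := hconv.smul (1 / (1 + ε))
  have hK'i : K' ⊆ interior K := by
    rintro _ ⟨x, hx, rfl⟩
    have := hconv.combo_interior_self_mem_interior h0 hx (a := ε / (1 + ε)) (b := 1 / (1 + ε))
      (by positivity) (by positivity) (by field_simp; ring)
    rwa [smul_zero, zero_add] at this
  have hnhd : K ∈ 𝓝ˢ K' :=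
    mem_of_superset (isOpen_interior.mem_nhdsSet.2 hK'i) interior_subset
  obtain ⟨u, hu1, hu2⟩ := hK'v.exists_subset_interior_convexHull_finset_of_isCompact hK'c hnhd
  obtain ⟨T, hT, huT, hTu⟩ := sym_finset u
  have huK : (u : Set E2) ⊆ K := (subset_convexHull ℝ _).trans hu2
  have hTK : (T : Set E2) ⊆ K := by
    intro t ht
    rcases hTu t ht with h | h
    · exact huK h
    · have := hs _ (huK h)
      rwa [neg_neg] at this
  have hsub : convexHull ℝ (u : Set E2) ⊆ convexHull ℝ ((T ∪ F : Finset E2) : Set E2) := by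
    apply convexHull_mono
    intro x hx
    rw [Finset.mem_coe, Finset.mem_union]
    exact Or.inl (huT hx)
  refine ⟨T ∪ F, ?_, Finset.subset_union_right, ?_, ?_, ?_⟩
  · intro s hs'
    rw [Finset.mem_union] at hs' ⊢
    rcases hs' with h | h
    · exact Or.inl (hT s h)
    · exact Or.inr (hFs s h)
  · rw [Finset.coe_union]
    exact union_subset hTK hFK
  · have hne : K'.Nonempty := ⟨_, 0, interior_subset h0, rfl⟩
    obtain ⟨x, hx⟩ := hne
    exact ⟨x, interior_mono hsub (hu1 hx)⟩
  · intro x hx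
    refine ⟨(1 / (1 + ε)) • x, hsub (interior_subset (hu1 ⟨x, hx, rfl⟩)), ?_⟩
    simp only
    rw [smul_smul, mul_one_div_cancel h1e.ne', one_smul]

/-- **the strict inequality** -/
theorem plane_strict (hp : 0 < p) (hc : IsCompact K) (hconv : Convex ℝ K)
    (hi : (interior K).Nonempty) (hs : ∀ x ∈ K, -x ∈ K)
    (hne : ¬ ∃ A : E2 ≃ₗ[ℝ] E2, K = A '' Sq) : Mp p Sq < Mp p K := by
  classical
  by_cases hfin : (K.extremePoints ℝ).Finite
  · set S := hfin.toFinset with hS
    have hSc : (S : Set E2) = K.extremePoints ℝ := hfin.coe_toFinset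
    have hKS : convexHull ℝ (S : Set E2) = K := by
      have h1 := closure_convexHull_extremePoints hc hconv
      rw [← hSc] at h1
      rwa [(S.finite_toSet.isClosed_convexHull (𝕜 := ℝ)).closure_eq] at h1
    rw [← hKS] at hi hne ⊢
    refine poly_strict hp ?_ hi hne
    intro s hs'
    have h1 : s ∈ K.extremePoints ℝ := by rw [← hSc]; exact hs'
    have h2 := ext_neg hs h1
    rw [← hSc] at h2
    exact h2
  · obtain ⟨F0, hF0, hF0c⟩ := Set.Infinite.exists_subset_card_eq (s := K.extremePoints ℝ) hfin 9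
    obtain ⟨F, hF, hF0F, hFF⟩ := sym_finset F0
    have hFe : ∀ f ∈ F, f ∈ K.extremePoints ℝ := by
      intro f hf
      rcases hFF f hf with h | h
      · exact hF0 h
      · have := ext_neg hs (hF0 h)
        rwa [neg_neg] at this
    have h9 : 9 ≤ F.card := by rw [← hF0c]; exact Finset.card_le_card hF0F
    have h0 := zero_int hconv hi hs
    obtain ⟨c', hc', hgap⟩ := gap hp hF (ext_NC hFe) h9 (max 4 (3 * F.card))
    refine lt_of_lt_of_le hc' ?_
    refine le_of_close (q := 1 + 1 / p) fun ε hε => ?_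
    have hFK : (F : Set E2) ⊆ K := fun f hf => (mem_extremePoints.1 (hFe f hf)).1
    obtain ⟨S, hSs, hFS, hSK, hSi, hKS⟩ := inner_approx hc hconv h0 hs hF hFK hε
    have hCf : Cf F S := by
      refine ⟨hSs, hF, hFS, fun f hf => ?_⟩
      obtain ⟨g, g1, g2⟩ := ext_mark hconv h0 (hFe f hf)
      exact ⟨g, g1, fun s hs' => g2 s (hSK hs')⟩
    have hLB : LB p c' (convexHull ℝ (S : Set E2)) := by
      refine reduce hp ?_ S hCf hSi
      intro T hT hTc hTi z
      refine (hgap T hT hTc).trans ?_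
      exact LB_sym hp (T.finite_toSet.isCompact_convexHull ℝ) hTi
        (fun x hx => neg_mem_hull hT.symm hx) z
    have h1 := hLB 0
    rw [image_sub_zero] at h1
    refine h1.trans ?_
    have hP : convexHull ℝ (S : Set E2) ⊆ K := convexHull_min hSK hconv
    exact Mp_close hp (S.finite_toSet.isCompact_convexHull ℝ) hSi hc hi hε.le hKS
      (hP.trans (sub_scale hconv (interior_subset h0) hε.le))

/-- **equality exactly for parallelograms** -/
theorem plane_eq_iff (hp : 0 < p) (hc : IsCompact K) (hconv : Convex ℝ K)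
    (hi : (interior K).Nonempty) (hs : ∀ x ∈ K, -x ∈ K) :
    Mp p K = Mp p Sq ↔ ∃ A : E2 ≃ₗ[ℝ] E2, K = A '' Sq := by
  constructor
  · intro h
    by_contra hne
    exact (plane_strict hp hc hconv hi hs hne).ne' h
  · rintro ⟨A, rfl⟩
    exact Mp_image hp A Sq_comp Sq_int

end Pool.Agent.TH922.PL
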