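import Pool.Agent.TH922.PL.A7

set_option autoImplicit false

/-!
Transfer to Euclidean space (helper922; the transfer of integrals follows a file of helper678).
-/

open MeasureTheory Set Filter
open scoped ENNReal Topology Matrix Pointwise

namespace Pool.Agent.TH922.PL

open Pool.Agent.H131R5.LM Pool.Agent.H131R5.LC Pool.Agent.W679.A

variable {n : ℕ} {p : ℝ}

/-- `M_p` on Euclidean space -/
noncomputable def ME (p : ℝ) (K : Set (EuclideanSpace ℝ (Fin n))) : ℝ≥0∞ :=
  volume K * ∫⁻ y : EuclideanSpace ℝ (Fin n), ENNReal.ofReal (Real.exp (-((1 / p) * Real.log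
    ((∫ x in K, Real.exp (p * inner ℝ x y)) / volume.real K))))

/-- the coordinates as a linear equivalence -/
noncomputable def Lc (n : ℕ) : EuclideanSpace ℝ (Fin n) ≃ₗ[ℝ] (Fin n → ℝ) :=
  WithLp.linearEquiv 2 ℝ (Fin n → ℝ)

lemma Lc_app (x : EuclideanSpace ℝ (Fin n)) (i : Fin n) : Lc n x i = x i := rfl

lemma Lc_pre (K : Set (EuclideanSpace ℝ (Fin n))) :
    (WithLp.ofLp : EuclideanSpace ℝ (Fin n) → (Fin n → ℝ)) ⁻¹' (Lc n '' K) = K := by
  ext x
  constructor
  · rintro ⟨y, hy, hxy⟩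
    have : y = x := (Lc n).injective hxy
    rwa [← this]
  · intro hx
    exact ⟨x, hx, rfl⟩

lemma vol_Lc (K : Set (EuclideanSpace ℝ (Fin n))) : volume (Lc n '' K) = volume K := by
  have hmp := PiLp.volume_preserving_ofLp (Fin n)
  have hm : MeasurableEmbedding (WithLp.ofLp : EuclideanSpace ℝ (Fin n) → (Fin n → ℝ)) :=
    (MeasurableEquiv.toLp 2 (Fin n → ℝ)).symm.measurableEmbedding
  rw [← hmp.measure_preimage_emb hm (Lc n '' K), Lc_pre]

lemma Lc_cont : Continuous (Lc n) :=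
  LinearMap.continuous_of_finiteDimensional (Lc n).toLinearMap

lemma Lc_int {K : Set (EuclideanSpace ℝ (Fin n))} (hi : (interior K).Nonempty) :
    (interior (Lc n '' K)).Nonempty := by
  have h := ((Lc n).toContinuousLinearEquiv.toHomeomorph).image_interior K
  have h2 : Lc n '' interior K = interior (Lc n '' K) := h
  rw [← h2]
  exact hi.image _

lemma ME_eq {K : Set (EuclideanSpace ℝ (Fin n))} (hc : IsCompact K)
    (hi : (interior K).Nonempty) : ME p K = Mp p (Lc n '' K) := by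
  have hmp := PiLp.volume_preserving_ofLp (Fin n)
  have hm : MeasurableEmbedding (WithLp.ofLp : EuclideanSpace ℝ (Fin n) → (Fin n → ℝ)) :=
    (MeasurableEquiv.toLp 2 (Fin n → ℝ)).symm.measurableEmbedding
  have hc' : IsCompact (Lc n '' K) := hc.image Lc_cont
  have hi' := Lc_int hi
  unfold ME Mp Fp
  rw [vol_Lc]
  congr 1
  have h1 : ∀ y : EuclideanSpace ℝ (Fin n), ∫ x in K, Real.exp (p * inner ℝ x y) =
      ∫ x in Lc n '' K, Real.exp (p * (x ⬝ᵥ WithLp.ofLp y)) := by
    intro y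
    rw [← hmp.setIntegral_preimage_emb hm
      (fun x : Fin n → ℝ => Real.exp (p * (x ⬝ᵥ WithLp.ofLp y))), Lc_pre]
    refine integral_congr_ae (Eventually.of_forall fun x => ?_)
    simp only
    rw [PiLp.inner_apply]
    unfold dotProduct
    congr 2
    refine Finset.sum_congr rfl fun i _ => ?_
    simp only [RCLike.inner_apply, conj_trivial]
    ring
  have h2 : ∀ y : EuclideanSpace ℝ (Fin n), ENNReal.ofReal (Real.exp (-((1 / p) * Real.log
      ((∫ x in K, Real.exp (p * inner ℝ x y)) / volume.real K)))) =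
      (fun y' : Fin n → ℝ => ENNReal.ofReal
        (((∫ x in Lc n '' K, Real.exp (p * (x ⬝ᵥ y'))) / (volume K).toReal) ^ (-(1 / p))))
          (WithLp.ofLp y) := by
    intro y
    simp only
    rw [h1]
    have hv : (volume (Lc n '' K)).toReal = volume.real K := by rw [vol_Lc]; rfl
    have h3 : 0 < (∫ x in Lc n '' K, Real.exp (p * (x ⬝ᵥ WithLp.ofLp y))) / volume.real K := by
      rw [← hv]
      exact div_pos (int_pos' hc' hi' p _) (vol_pos' hc' hi')
    have h4 : (volume K).toReal = volume.real K := rfl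
    rw [h4, Real.rpow_def_of_pos h3]
    congr 2
    ring
  rw [lintegral_congr h2]
  exact hmp.lintegral_comp_emb hm (fun y' : Fin n → ℝ => ENNReal.ofReal
        (((∫ x in Lc n '' K, Real.exp (p * (x ⬝ᵥ y'))) / (volume K).toReal) ^ (-(1 / p))))

/-- the square in Euclidean space -/
def SqE : Set (EuclideanSpace ℝ (Fin 2)) := {x | ∀ i, |x i| ≤ 1}

lemma Lc_Sq : Lc 2 '' SqE = Sq := by
  ext x
  constructor
  · rintro ⟨y, hy, rfl⟩ i
    exact hy i
  · intro h
    exact ⟨WithLp.toLp 2 x, fun i => h i, rfl⟩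

lemma Lc_symm_Sq : (Lc 2).symm '' Sq = SqE := by
  rw [← Lc_Sq, image_image]
  simp

lemma SqE_comp : IsCompact SqE := by
  rw [← Lc_symm_Sq]
  exact Sq_comp.image (LinearMap.continuous_of_finiteDimensional (Lc 2).symm.toLinearMap)

lemma SqE_int : (interior SqE).Nonempty := by
  have h := ((Lc 2).symm.toContinuousLinearEquiv.toHomeomorph).image_interior Sq
  have h2 : (Lc 2).symm '' interior Sq = interior ((Lc 2).symm '' Sq) := h
  rw [Lc_symm_Sq] at h2
  rw [← h2]
  exact Sq_int.image _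

/-- **the plane** -/
theorem main (hp : 0 < p) {K : Set (EuclideanSpace ℝ (Fin 2))} (hc : IsCompact K)
    (hconv : Convex ℝ K) (hi : (interior K).Nonempty) (hs : ∀ x ∈ K, -x ∈ K) :
    ME p SqE ≤ ME p K ∧ (ME p K = ME p SqE ↔
      ∃ S : EuclideanSpace ℝ (Fin 2) ≃ₗ[ℝ] EuclideanSpace ℝ (Fin 2), K = S '' SqE) := by
  have hc' : IsCompact (Lc 2 '' K) := hc.image Lc_cont
  have hi' := Lc_int hi
  have hv' : Convex ℝ (Lc 2 '' K) := hconv.linear_image (Lc 2).toLinearMap
  have hs' : ∀ x ∈ Lc 2 '' K, -x ∈ Lc 2 '' K := by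
    rintro _ ⟨x, hx, rfl⟩
    exact ⟨-x, hs x hx, by rw [map_neg]⟩
  rw [ME_eq hc hi, ME_eq SqE_comp SqE_int, Lc_Sq]
  refine ⟨plane_le hp hc' hv' hi' hs', (plane_eq_iff hp hc' hv' hi' hs').trans ?_⟩
  constructor
  · rintro ⟨A, hA⟩
    refine ⟨(Lc 2).trans (A.trans (Lc 2).symm), ?_⟩
    have h1 : K = (Lc 2).symm '' (Lc 2 '' K) := by rw [image_image]; simp
    rw [h1, hA, ← Lc_Sq, image_image, image_image]
    rfl
  · rintro ⟨S, hS⟩
    refine ⟨(Lc 2).symm.trans (S.trans (Lc 2)), ?_⟩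
    rw [hS, ← Lc_Sq, image_image, image_image]
    refine image_congr fun x _ => ?_
    simp

end Pool.Agent.TH922.PL
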