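import Pool.Agent.TH922.PL.A8

/-!
# The symmetric `L^p`-Mahler inequality in the plane, for every `p > 0`, with the equality case

For every real `p > 0` the `L^p` Mahler volume of a symmetric convex body in the plane is at least
that of the square `[-1, 1]^2`, and equality holds exactly for the parallelograms.
-/

set_option autoImplicit false

open MeasureTheory

namespace Pool.Agent.TH922.PL.PlanarAllP

/-- the square `[-1, 1]^2` -/
def square : Set (EuclideanSpace ℝ (Fin 2)) := {x | ∀ i : Fin 2, |x i| ≤ 1}

/-- the `L^p` support function `(1/p) log (∫_K exp (p ⟨x, y⟩) dx / |K|)` -/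
noncomputable def supportLp (p : ℝ) (K : Set (EuclideanSpace ℝ (Fin 2)))
    (y : EuclideanSpace ℝ (Fin 2)) : ℝ :=
  (1 / p) * Real.log ((∫ x in K, Real.exp (p * inner ℝ x y)) / volume.real K)

/-- the `L^p` Mahler volume `|K| ∫ exp (-h_{p,K})` -/
noncomputable def mahlerLp (p : ℝ) (K : Set (EuclideanSpace ℝ (Fin 2))) : ENNReal :=
  volume K * ∫⁻ y : EuclideanSpace ℝ (Fin 2), ENNReal.ofReal (Real.exp (-supportLp p K y))

/-- **The symmetric `L^p`-Mahler inequality in the plane for every `p > 0`**, with equality
exactly for the linear images of the square, that is, for the parallelograms. -/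
theorem result (p : ℝ) (hp : 0 < p) (K : Set (EuclideanSpace ℝ (Fin 2))) (hK : IsCompact K)
    (hconv : Convex ℝ K) (hint : (interior K).Nonempty) (hsymm : ∀ x ∈ K, -x ∈ K) :
    mahlerLp p square ≤ mahlerLp p K ∧
      (mahlerLp p K = mahlerLp p square ↔
        ∃ S : EuclideanSpace ℝ (Fin 2) ≃ₗ[ℝ] EuclideanSpace ℝ (Fin 2), K = S '' square) :=
  Pool.Agent.TH922.PL.main hp hK hconv hint hsymm

end Pool.Agent.TH922.PL.PlanarAllP
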